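import Mathlib

/-!
Spectral radius tools in a complex Banach algebra: maximum principle, three circles, Liouville.
-/

set_option autoImplicit false

open Filter Topology

noncomputable section

namespace Pool.Agent.Helper757.SB

variable {B : Type*} [NormedRing B] [NormedAlgebra ℂ B] [CompleteSpace B]

/-- the spectral radius as a real number -/
def rr (x : B) : ℝ := (spectralRadius ℂ x).toReal

theorem rr_nonneg (x : B) : 0 ≤ rr x := ENNReal.toReal_nonneg

theorem norm_pow_le_pow (x : B) {n : ℕ} (hn : 1 ≤ n) : ‖x ^ n‖ ≤ ‖x‖ ^ n :=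
  norm_pow_le' x (by omega)

theorem sr_le_of_frequently (x : B) {ρ : ℝ} (hρ : 0 ≤ ρ)
    (h : ∃ᶠ n in atTop, ‖x ^ n‖ ≤ ρ ^ n) : spectralRadius ℂ x ≤ ENNReal.ofReal ρ := by
  have ht := spectrum.pow_norm_pow_one_div_tendsto_nhds_spectralRadius x
  by_contra hlt
  rw [not_le] at hlt
  have h1 := ht.eventually_const_lt hlt
  have h2 : ∀ᶠ n in atTop, ¬ (‖x ^ n‖ ≤ ρ ^ n) := by
    filter_upwards [h1, eventually_ge_atTop 1] with n hn hn1 hle
    apply absurd hn
    rw [not_lt]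
    apply ENNReal.ofReal_le_ofReal
    have h3 : (‖x ^ n‖) ^ (1 / (n : ℝ)) ≤ (ρ ^ n) ^ (1 / (n : ℝ)) :=
      Real.rpow_le_rpow (norm_nonneg _) hle (by positivity)
    refine h3.trans ?_
    rw [← Real.rpow_natCast, ← Real.rpow_mul hρ, mul_one_div_cancel (by positivity), Real.rpow_one]
  exact h h2

theorem sr_le_norm (x : B) : spectralRadius ℂ x ≤ ENNReal.ofReal ‖x‖ := by
  apply sr_le_of_frequently x (norm_nonneg x)
  apply Eventually.frequently
  filter_upwards [eventually_ge_atTop 1] with n hn using norm_pow_le_pow x hn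

theorem sr_ne_top (x : B) : spectralRadius ℂ x ≠ ⊤ :=
  ne_top_of_le_ne_top ENNReal.ofReal_ne_top (sr_le_norm x)

theorem ofReal_rr (x : B) : ENNReal.ofReal (rr x) = spectralRadius ℂ x :=
  ENNReal.ofReal_toReal (sr_ne_top x)

theorem rr_le_iff (x : B) {ρ : ℝ} (hρ : 0 ≤ ρ) :
    rr x ≤ ρ ↔ spectralRadius ℂ x ≤ ENNReal.ofReal ρ := by
  rw [← ofReal_rr x, ENNReal.ofReal_le_ofReal_iff hρ]

theorem rr_le_norm (x : B) : rr x ≤ ‖x‖ := (rr_le_iff x (norm_nonneg x)).2 (sr_le_norm x)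

theorem rr_le_of_frequently (x : B) {ρ : ℝ} (hρ : 0 ≤ ρ)
    (h : ∃ᶠ n in atTop, ‖x ^ n‖ ≤ ρ ^ n) : rr x ≤ ρ :=
  (rr_le_iff x hρ).2 (sr_le_of_frequently x hρ h)

/-- Gelfand formula, easy to use form. -/
theorem eventually_pow_lt (x : B) {ρ : ℝ} (h : rr x < ρ) :
    ∃ k₀ : ℕ, ∀ k ≥ k₀, ‖x ^ k‖ < ρ ^ k := by
  have hρ0 : 0 < ρ := (rr_nonneg x).trans_lt h
  have h2 : spectralRadius ℂ x < ENNReal.ofReal ρ := by
    rw [← ofReal_rr x]
    exact (ENNReal.ofReal_lt_ofReal_iff hρ0).2 h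
  have h3 := (spectrum.pow_norm_pow_one_div_tendsto_nhds_spectralRadius x).eventually_lt_const h2
  obtain ⟨k₀, hk₀⟩ := eventually_atTop.1 h3
  refine ⟨max k₀ 1, fun k hk => ?_⟩
  have hk1 : k₀ ≤ k := (le_max_left _ _).trans hk
  have hk2 : 1 ≤ k := (le_max_right _ _).trans hk
  have h4 := hk₀ k hk1
  rw [ENNReal.ofReal_lt_ofReal_iff hρ0] at h4
  have h5 : (‖x ^ k‖ ^ (1 / (k : ℝ))) ^ (k : ℝ) < ρ ^ (k : ℝ) :=
    Real.rpow_lt_rpow (by positivity) h4 (by positivity)
  rw [← Real.rpow_mul (norm_nonneg _), one_div, inv_mul_cancel₀ (by positivity), Real.rpow_one,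
    Real.rpow_natCast] at h5
  exact h5

theorem rr_le_of_pow (x : B) {ρ : ℝ} (hρ : 0 ≤ ρ) {n : ℕ} (hn : 1 ≤ n) (h : ‖x ^ n‖ ≤ ρ ^ n) :
    rr x ≤ ρ := by
  apply rr_le_of_frequently x hρ
  rw [frequently_atTop]
  intro a
  refine ⟨n * (a + 1), ?_, ?_⟩
  · nlinarith
  · rw [pow_mul, pow_mul]
    exact (norm_pow_le_pow _ (by omega)).trans (pow_le_pow_left₀ (norm_nonneg _) h _)

/-- if the powers grow at most like `K s^n` then the spectral radius is at most `s` -/
theorem rr_le_of_growth (x : B) {K s : ℝ} (hs : 0 ≤ s) (h : ∀ n, ‖x ^ n‖ ≤ K * s ^ n) :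
    rr x ≤ s := by
  apply le_of_forall_gt_imp_ge_of_dense
  intro s' hs'
  apply rr_le_of_frequently x (hs.trans hs'.le)
  have hs0 : 0 < s' := hs.trans_lt hs'
  have h1 : Tendsto (fun n : ℕ => K * (s / s') ^ n) atTop (𝓝 (K * 0)) :=
    (tendsto_pow_atTop_nhds_zero_of_lt_one (by positivity) ((div_lt_one hs0).2 hs')).const_mul K
  rw [mul_zero] at h1
  apply Eventually.frequently
  filter_upwards [h1.eventually_lt_const one_pos] with n hn
  refine (h n).trans ?_
  have h2 : K * s ^ n = K * (s / s') ^ n * s' ^ n := by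
    rw [div_pow]; field_simp
  rw [h2]
  calc K * (s / s') ^ n * s' ^ n ≤ 1 * s' ^ n := by gcongr
    _ = s' ^ n := one_mul _

/-- uniform version on compact sets -/
theorem exists_uniform {K : Set ℂ} (hK : IsCompact K) {f : ℂ → B} (hf : Continuous f) {ρ : ℝ}
    (hρ : 0 ≤ ρ) (h : ∀ z ∈ K, rr (f z) < ρ) :
    ∃ k₀ : ℕ, ∀ k ≥ k₀, ∀ z ∈ K, ‖f z ^ 2 ^ k‖ < ρ ^ 2 ^ k := by
  let U : ℕ → Set ℂ := fun k => {l | ‖f l ^ 2 ^ k‖ < ρ ^ 2 ^ k}
  have hUo : ∀ k, IsOpen (U k) := fun k => isOpen_lt (by fun_prop) continuous_const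
  have hUm : Monotone U := by
    apply monotone_nat_of_le_succ
    intro k l hl
    have hl' : ‖f l ^ 2 ^ k‖ < ρ ^ 2 ^ k := hl
    show ‖f l ^ 2 ^ (k + 1)‖ < ρ ^ 2 ^ (k + 1)
    rw [pow_succ, pow_mul, pow_mul]
    refine (norm_pow_le' _ (by norm_num)).trans_lt ?_
    exact pow_lt_pow_left₀ hl' (norm_nonneg _) (by norm_num)
  have hcov : K ⊆ ⋃ k, U k := by
    intro l hl
    obtain ⟨k₀, hk₀⟩ := eventually_pow_lt (f l) (h l hl)
    rw [Set.mem_iUnion]
    exact ⟨k₀, hk₀ _ (Nat.lt_two_pow_self).le⟩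
  obtain ⟨k, hk⟩ := hK.elim_directed_cover U hUo hcov hUm.directed_le
  exact ⟨k, fun k' hk' z hz => hUm hk' (hk hz)⟩

/-- the maximum principle for the spectral radius on a disc -/
theorem rr_le_of_circle {f : ℂ → B} (hf : Differentiable ℂ f) {R M : ℝ} (hR : 0 < R)
    (h : ∀ z, ‖z‖ = R → rr (f z) ≤ M) {z : ℂ} (hz : ‖z‖ ≤ R) : rr (f z) ≤ M := by
  have hM : 0 ≤ M := (rr_nonneg _).trans (h R (by simp [abs_of_pos hR]))
  apply le_of_forall_gt_imp_ge_of_dense
  intro ρ hρ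
  obtain ⟨k, hk⟩ := exists_uniform (isCompact_sphere (0 : ℂ) R) hf.continuous (hM.trans hρ.le)
    (fun z hz => (h z (by simpa using hz)).trans_lt hρ)
  have h1 : ‖f z ^ 2 ^ k‖ ≤ ρ ^ 2 ^ k := by
    have hd : DiffContOnCl ℂ (fun z => f z ^ 2 ^ k) (Metric.ball (0 : ℂ) R) :=
      (hf.pow _).diffContOnCl
    apply Complex.norm_le_of_forall_mem_frontier_norm_le Metric.isBounded_ball hd
    · intro w hw
      rw [frontier_ball _ hR.ne'] at hw
      exact (hk k le_rfl w hw).le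
    · rw [closure_ball _ hR.ne']
      simpa using hz
  exact rr_le_of_pow _ (hM.trans hρ.le) Nat.one_le_two_pow h1

/-- three circles for the spectral radius -/
theorem three_circles {f : ℂ → B} (hf : Differentiable ℂ f) {δ R m C : ℝ} (hδ : 0 < δ)
    (hR : δ < R) (hm0 : 0 < m) (hC0 : 0 < C)
    (hm : ∀ z, ‖z‖ = δ → rr (f z) < m) (hC : ∀ z, ‖z‖ = R → rr (f z) < C) {z : ℂ}
    (hz1 : δ ≤ ‖z‖) (hz2 : ‖z‖ ≤ R) :
    rr (f z) ≤ m ^ (1 - (Real.log ‖z‖ - Real.log δ) / (Real.log R - Real.log δ)) *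
      C ^ ((Real.log ‖z‖ - Real.log δ) / (Real.log R - Real.log δ)) := by
  have hR0 : 0 < R := hδ.trans hR
  have hz0 : 0 < ‖z‖ := hδ.trans_le hz1
  obtain ⟨k1, hk1⟩ := exists_uniform (isCompact_sphere (0 : ℂ) δ) hf.continuous hm0.le
    (fun z hz => hm z (by simpa using hz))
  obtain ⟨k2, hk2⟩ := exists_uniform (isCompact_sphere (0 : ℂ) R) hf.continuous hC0.le
    (fun z hz => hC z (by simpa using hz))
  set k := max k1 k2
  set N := 2 ^ k with hN
  let F : ℂ → B := fun w => f (Complex.exp w) ^ N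
  have hFd : Differentiable ℂ F := (hf.comp Complex.differentiable_exp).pow _
  have hlog : Real.log δ < Real.log R := Real.log_lt_log hδ hR
  have hB : BddAbove ((norm ∘ F) '' Complex.HadamardThreeLines.verticalClosedStrip
      (Real.log δ) (Real.log R)) := by
    obtain ⟨c, hc⟩ := (isCompact_closedBall (0 : ℂ) R).bddAbove_image
      (f := fun z => ‖f z ^ N‖) (hf.continuous.pow _).norm.continuousOn
    refine ⟨c, ?_⟩
    rintro _ ⟨w, hw, rfl⟩
    apply hc
    refine ⟨Complex.exp w, ?_, rfl⟩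
    rw [mem_closedBall_zero_iff, Complex.norm_exp]
    have : w.re ≤ Real.log R := hw.2
    calc Real.exp w.re ≤ Real.exp (Real.log R) := Real.exp_le_exp.2 this
      _ = R := Real.exp_log hR0
  have key := Complex.HadamardThreeLines.norm_le_interp_of_mem_verticalClosedStrip'
    (f := F) (z := Complex.log z) (a := m ^ N) (b := C ^ N) hlog
    (by
      show (Complex.log z).re ∈ Set.Icc _ _
      rw [Complex.log_re]
      exact ⟨Real.log_le_log hδ hz1, Real.log_le_log hz0 hz2⟩)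
    hFd.diffContOnCl hB
    (by
      intro w hw
      have hw' : w.re = Real.log δ := hw
      refine (hk1 k (le_max_left _ _) _ ?_).le
      rw [mem_sphere_zero_iff_norm, Complex.norm_exp, hw', Real.exp_log hδ])
    (by
      intro w hw
      have hw' : w.re = Real.log R := hw
      refine (hk2 k (le_max_right _ _) _ ?_).le
      rw [mem_sphere_zero_iff_norm, Complex.norm_exp, hw', Real.exp_log hR0])
  rw [Complex.log_re] at key
  have hz' : z ≠ 0 := norm_pos_iff.1 hz0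
  have h1 : F (Complex.log z) = f z ^ N := by
    show f (Complex.exp (Complex.log z)) ^ N = _
    rw [Complex.exp_log hz']
  rw [h1] at key
  set t := (Real.log ‖z‖ - Real.log δ) / (Real.log R - Real.log δ)
  apply rr_le_of_pow _ (by positivity) (Nat.one_le_two_pow (n := k))
  rw [← hN]
  refine key.trans (le_of_eq ?_)
  rw [mul_pow, ← Real.rpow_natCast (m ^ (1 - t)), ← Real.rpow_natCast (C ^ t),
    ← Real.rpow_mul hm0.le, ← Real.rpow_mul hC0.le, ← Real.rpow_natCast m, ← Real.rpow_natCast C,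
    ← Real.rpow_mul hm0.le, ← Real.rpow_mul hC0.le, mul_comm (N : ℝ) (1 - t), mul_comm (N : ℝ) t]

theorem tendsto_interp {m C a b : ℝ} (hm : 0 < m) (hC : 0 < C) :
    Tendsto (fun R : ℝ => m ^ (1 - a / (Real.log R - b)) * C ^ (a / (Real.log R - b))) atTop
      (𝓝 m) := by
  have h1 : Tendsto (fun R : ℝ => a / (Real.log R - b)) atTop (𝓝 0) :=
    Tendsto.div_atTop tendsto_const_nhds
      (tendsto_atTop_add_const_right _ (-b) Real.tendsto_log_atTop)
  have h2 : Tendsto (fun t : ℝ => m ^ (1 - t) * C ^ t) (𝓝 0) (𝓝 (m ^ (1 - (0 : ℝ)) * C ^ (0 : ℝ))) := by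
    apply Continuous.tendsto
    have := hm.ne'
    have := hC.ne'
    apply Continuous.mul
    · exact continuous_const.rpow (by fun_prop) (fun _ => Or.inl hm.ne')
    · exact continuous_const.rpow (by fun_prop) (fun _ => Or.inl hC.ne')
  have h3 := h2.comp h1
  simpa [Function.comp_def] using h3

/-- upper semicontinuity along a continuous function -/
theorem eventually_rr_le {X : Type*} [TopologicalSpace X] {f : X → B} {x₀ : X}
    (hf : ContinuousAt f x₀) {ρ : ℝ} (h : rr (f x₀) < ρ) : ∀ᶠ x in 𝓝 x₀, rr (f x) ≤ ρ := by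
  obtain ⟨k₀, hk⟩ := eventually_pow_lt (f x₀) h
  have h1 := hk (max k₀ 1) (le_max_left _ _)
  have h2 : ContinuousAt (fun x => ‖f x ^ (max k₀ 1)‖) x₀ := (hf.pow _).norm
  filter_upwards [h2.eventually_lt_const h1] with x hx
  exact rr_le_of_pow _ ((rr_nonneg _).trans h.le) (le_max_right _ _) hx.le

/-- Liouville for the spectral radius -/
theorem liouville {f : ℂ → B} (hf : Differentiable ℂ f) {C : ℝ} (h : ∀ z, rr (f z) ≤ C) (z : ℂ) :
    rr (f z) ≤ rr (f 0) := by
  have hC0 : 0 ≤ C := (rr_nonneg _).trans (h 0)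
  apply le_of_forall_gt_imp_ge_of_dense
  intro ρ hρ
  obtain ⟨ρ', h1, h2⟩ := exists_between hρ
  have hρ0 : 0 < ρ := (rr_nonneg _).trans_lt hρ
  obtain ⟨ε, hε, hball⟩ := Metric.eventually_nhds_iff.1
    (eventually_rr_le hf.continuous.continuousAt h1)
  rcases lt_or_ge ‖z‖ ε with hz | hz
  · exact (hball (by simpa using hz)).trans h2.le
  · have hδ : 0 < ε / 2 := by positivity
    refine ge_of_tendsto (tendsto_interp (a := Real.log ‖z‖ - Real.log (ε / 2))
      (b := Real.log (ε / 2)) hρ0 (show 0 < C + 1 by linarith)) ?_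
    filter_upwards [eventually_gt_atTop (max ε ‖z‖)] with R hR
    have hR1 : ε < R := (le_max_left _ _).trans_lt hR
    have hR2 : ‖z‖ < R := (le_max_right _ _).trans_lt hR
    apply three_circles hf hδ (by linarith) hρ0 (by linarith)
    · intro w hw
      exact (hball (by rw [dist_zero_right, hw]; linarith)).trans_lt h2
    · intro w _
      linarith [h w]
    · linarith
    · exact hR2.le

/-- derivative at the origin -/
theorem rr_deriv_le {F : ℂ → B} (hF : Differentiable ℂ F) (b : B) (μ : ℂ) {K C : ℝ}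
    (h : ∀ l : ℂ, l ≠ 0 → rr (b + μ • l⁻¹ • (F l - F 0)) ≤ K + C / ‖l‖) :
    rr (b + μ • deriv F 0) ≤ K := by
  have hd : Differentiable ℂ (dslope F 0) := by
    rw [← differentiableOn_univ]
    exact (Complex.differentiableOn_dslope Filter.univ_mem).2 hF.differentiableOn
  have hh : Differentiable ℂ (fun l => b + μ • dslope F 0 l) := by fun_prop
  have h1 : ∀ R : ℝ, 0 < R → rr (b + μ • deriv F 0) ≤ K + C / R := by
    intro R hR
    have h2 := rr_le_of_circle hh hR (M := K + C / R) (by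
      intro l hl
      have hl0 : l ≠ 0 := by
        rintro rfl
        simp at hl
        linarith
      have h3 := h l hl0
      rw [hl] at h3
      show rr (b + μ • dslope F 0 l) ≤ _
      rw [dslope_of_ne _ hl0, slope_def_module, sub_zero]
      exact h3) (z := 0) (by simpa using hR.le)
    simpa using h2
  have h2 : Tendsto (fun R : ℝ => K + C / R) atTop (𝓝 (K + 0)) :=
    tendsto_const_nhds.add (tendsto_const_nhds.div_atTop tendsto_id)
  rw [add_zero] at h2
  exact ge_of_tendsto h2 (by filter_upwards [eventually_gt_atTop 0] with R hR using h1 R hR)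

theorem exists_growth (x : B) {ρ : ℝ} (h : rr x < ρ) : ∃ K : ℝ, 0 ≤ K ∧ ∀ n, ‖x ^ n‖ ≤ K * ρ ^ n := by
  have hρ0 : 0 < ρ := (rr_nonneg x).trans_lt h
  obtain ⟨k₀, hk⟩ := eventually_pow_lt x h
  refine ⟨1 + ∑ i ∈ Finset.range k₀, ‖x ^ i‖ / ρ ^ i, by positivity, fun n => ?_⟩
  rcases Nat.lt_or_ge n k₀ with hn | hn
  · have h1 : ‖x ^ n‖ / ρ ^ n ≤ ∑ i ∈ Finset.range k₀, ‖x ^ i‖ / ρ ^ i :=
      Finset.single_le_sum (f := fun i => ‖x ^ i‖ / ρ ^ i) (fun i _ => by positivity)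
        (Finset.mem_range.2 hn)
    have h2 : ‖x ^ n‖ = ‖x ^ n‖ / ρ ^ n * ρ ^ n := by field_simp
    rw [h2]
    gcongr
    linarith
  · have h3 : 0 ≤ ∑ i ∈ Finset.range k₀, ‖x ^ i‖ / ρ ^ i := by positivity
    calc ‖x ^ n‖ ≤ 1 * ρ ^ n := by rw [one_mul]; exact (hk n hn).le
      _ ≤ _ := by gcongr; linarith

/-- spectral radius of a sum of commuting elements -/
theorem rr_add_le {x y : B} (hxy : Commute x y) : rr (x + y) ≤ rr x + ‖y‖ := by
  apply le_of_forall_gt_imp_ge_of_dense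
  intro s hs
  set ρ := s - ‖y‖ with hρ
  have hρ1 : rr x < ρ := by linarith
  have hρ0 : 0 < ρ := (rr_nonneg x).trans_lt hρ1
  obtain ⟨K, hK0, hK⟩ := exists_growth x hρ1
  have hs' : s = ρ + ‖y‖ := by rw [hρ]; ring
  apply rr_le_of_growth (K := K * (1 + ‖(1 : B)‖)) _ (by rw [hs']; positivity)
  intro n
  rw [hxy.add_pow, hs', add_pow, Finset.mul_sum]
  refine (norm_sum_le _ _).trans (Finset.sum_le_sum fun i _ => ?_)
  have h1 : ‖y ^ (n - i)‖ ≤ (1 + ‖(1 : B)‖) * ‖y‖ ^ (n - i) := by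
    rcases Nat.eq_zero_or_pos (n - i) with h | h
    · rw [h, pow_zero, pow_zero, mul_one]
      linarith [norm_nonneg (1 : B)]
    · refine (norm_pow_le_pow y h).trans ?_
      nlinarith [norm_nonneg (1 : B), pow_nonneg (norm_nonneg y) (n - i)]
  have h2 : ‖x ^ i * y ^ (n - i) * ((n.choose i : ℕ) : B)‖ ≤ (n.choose i : ℝ) *
      (‖x ^ i‖ * ‖y ^ (n - i)‖) := by
    have h3 : x ^ i * y ^ (n - i) * ((n.choose i : ℕ) : B) = ((n.choose i : ℕ) : ℂ) •
        (x ^ i * y ^ (n - i)) := by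
      rw [Nat.cast_smul_eq_nsmul, nsmul_eq_mul, (Nat.cast_commute _ _).eq]
    rw [h3, norm_smul, Complex.norm_natCast]
    gcongr
    exact norm_mul_le _ _
  refine h2.trans ?_
  calc (n.choose i : ℝ) * (‖x ^ i‖ * ‖y ^ (n - i)‖)
      ≤ (n.choose i : ℝ) * ((K * ρ ^ i) * ((1 + ‖(1 : B)‖) * ‖y‖ ^ (n - i))) := by
        gcongr
        exact hK i
    _ = _ := by ring

/-- product of commuting elements, one of them quasi-nilpotent -/
theorem rr_mul_eq_zero {c q : B} (h : Commute c q) (hq : rr q = 0) : rr (c * q) = 0 := by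
  refine le_antisymm ?_ (rr_nonneg _)
  apply le_of_forall_gt_imp_ge_of_dense
  intro ε hε
  set δ := ε / (‖c‖ + 1) with hδ
  have hc := norm_nonneg c
  have hδ0 : 0 < δ := by positivity
  obtain ⟨K, hK0, hK⟩ := exists_growth q (show rr q < δ by rw [hq]; exact hδ0)
  apply rr_le_of_growth (K := K * (1 + ‖(1 : B)‖)) _ hε.le
  intro n
  rw [h.mul_pow]
  have h1 : ‖c ^ n‖ ≤ (1 + ‖(1 : B)‖) * (‖c‖ + 1) ^ n := by
    rcases Nat.eq_zero_or_pos n with h | h
    · rw [h, pow_zero, pow_zero, mul_one]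
      linarith [norm_nonneg (1 : B)]
    · refine (norm_pow_le_pow c h).trans ?_
      have h2 : ‖c‖ ^ n ≤ (‖c‖ + 1) ^ n := by gcongr; linarith
      nlinarith [norm_nonneg (1 : B), pow_nonneg (show 0 ≤ ‖c‖ + 1 by linarith) n]
  calc ‖c ^ n * q ^ n‖ ≤ ‖c ^ n‖ * ‖q ^ n‖ := norm_mul_le _ _
    _ ≤ ((1 + ‖(1 : B)‖) * (‖c‖ + 1) ^ n) * (K * δ ^ n) := by
        gcongr
        exact hK n
    _ = K * (1 + ‖(1 : B)‖) * ((‖c‖ + 1) * δ) ^ n := by rw [mul_pow]; ring
    _ = K * (1 + ‖(1 : B)‖) * ε ^ n := by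
        congr 2
        rw [hδ]
        field_simp

theorem isUnit_one_add {x : B} (h : rr x < 1) : IsUnit (1 + x) := by
  have h1 : spectralRadius ℂ x < ‖(-1 : ℂ)‖₊ := by
    rw [← ofReal_rr x]
    simp only [nnnorm_neg, nnnorm_one, ENNReal.coe_one]
    rw [← ENNReal.ofReal_one]
    exact (ENNReal.ofReal_lt_ofReal_iff one_pos).2 h
  have h2 : (-1 : ℂ) ∈ resolventSet ℂ x := spectrum.mem_resolventSet_of_spectralRadius_lt h1
  rw [spectrum.mem_resolventSet_iff] at h2
  have h3 : algebraMap ℂ B (-1) - x = -(1 + x) := by simp; abel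
  rw [h3] at h2
  exact (IsUnit.neg_iff _).1 h2

theorem rr_eq_zero_of_units {x : B} (h : ∀ μ : ℂ, IsUnit (1 + μ • x)) : rr x = 0 := by
  have h1 : spectralRadius ℂ x ≤ 0 := by
    unfold spectralRadius
    apply iSup₂_le
    intro k hk
    by_cases hk0 : k = 0
    · simp [hk0]
    · exfalso
      apply hk
      rw [spectrum.mem_resolventSet_iff]
      have h2 : algebraMap ℂ B k - x = k • (1 + (-k⁻¹) • x) := by
        rw [smul_add, smul_smul, mul_neg, mul_inv_cancel₀ hk0, neg_one_smul,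
          Algebra.algebraMap_eq_smul_one]
        abel
      rw [h2]
      exact (h _).smul (Units.mk0 k hk0)
  have h2 : spectralRadius ℂ x = 0 := le_antisymm h1 bot_le
  simp [rr, h2]

theorem units_of_rr_eq_zero {x : B} (h : rr x = 0) (μ : ℂ) : IsUnit (1 + μ • x) := by
  apply isUnit_one_add
  have h1 : Commute (algebraMap ℂ B μ) x := Algebra.commutes μ x
  have h2 := rr_mul_eq_zero h1 h
  rw [← Algebra.smul_def] at h2
  rw [h2]
  exact one_pos

theorem rr_units_conj (u : Bˣ) (x : B) : rr ((u : B) * x * (↑u⁻¹ : B)) = rr x := by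
  unfold rr spectralRadius
  rw [spectrum.units_conjugate]

end Pool.Agent.Helper757.SB
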