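import Mathlib
import Pool.Agent.Helper757.SB.Rad

/-!
Characterisations of the radical by the spectral radius, automatic continuity.
-/

set_option autoImplicit false

open Filter Topology

noncomputable section

namespace Pool.Agent.Helper757.SB

variable {B : Type*} [NormedRing B] [NormedAlgebra ℂ B] [CompleteSpace B]

theorem mem_jacobson_of_rr {x : B} (h : ∀ c : B, rr (c * x) = 0) : x ∈ (⊥ : Ideal B).jacobson := by
  rw [Ideal.mem_jacobson_iff]
  intro y
  have h1 : IsUnit (1 + y * x) := isUnit_one_add (by rw [h y]; exact one_pos)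
  obtain ⟨u, hu⟩ := h1
  refine ⟨(↑u⁻¹ : B), ?_⟩
  have h2 : (↑u⁻¹ : B) * y * x + ↑u⁻¹ - 1 = 0 := by
    have h3 : (↑u⁻¹ : B) * (1 + y * x) = 1 := by rw [← hu]; exact u.inv_mul
    rw [mul_add, mul_one, ← mul_assoc] at h3
    rw [add_comm, h3, sub_self]
  rw [h2]
  exact Ideal.zero_mem _

/-- first step: `(1 + c) s` is quasi-nilpotent for small `c` -/
theorem rr_small {s : B} (h : ∀ b : B, ∀ μ : ℂ, rr (b + μ • s) ≤ rr b) {k : B} (hk : ‖k‖ < 1 / 2) :
    rr ((1 + k) * s) = 0 := by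
  have hu : IsUnit (1 + k) := isUnit_one_add ((rr_le_norm k).trans_lt (by linarith))
  obtain ⟨u, hu⟩ := hu
  set g : B := 1 - (↑u⁻¹ : B) with hg
  -- g = u⁻¹ k
  have h1 : g = (↑u⁻¹ : B) * k := by
    have h3 : (↑u⁻¹ : B) * (1 + k) = 1 := by rw [← hu]; exact u.inv_mul
    rw [mul_add, mul_one] at h3
    rw [hg, ← h3]; abel
  have h2 : g = k - g * k := by
    conv_rhs => rw [hg, sub_mul, one_mul, ← h1]
    abel
  have h3 : ‖g‖ < 1 := by
    have h4 : ‖g‖ ≤ ‖k‖ + ‖g‖ * ‖k‖ := by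
      calc ‖g‖ = ‖k - g * k‖ := by rw [← h2]
        _ ≤ ‖k‖ + ‖g * k‖ := norm_sub_le _ _
        _ ≤ _ := by gcongr; exact norm_mul_le _ _
    nlinarith [norm_nonneg g, norm_nonneg k]
  apply rr_eq_zero_of_units
  intro μ
  have h5 : IsUnit (1 + (-g + μ • s)) := by
    apply isUnit_one_add
    refine (h (-g) μ).trans_lt ((rr_le_norm _).trans_lt ?_)
    rwa [norm_neg]
  have h6 : 1 + μ • ((1 + k) * s) = (u : B) * (1 + (-g + μ • s)) := by
    have h7 : (u : B) * (↑u⁻¹ : B) = 1 := u.mul_inv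
    rw [hg, ← hu]
    have h8 : 1 + (-(1 - (↑u⁻¹ : B)) + μ • s) = (↑u⁻¹ : B) + μ • s := by abel
    rw [h8, mul_add, h7, mul_smul_comm]
  rw [h6]
  exact u.isUnit.mul h5

/-- Zemanek's characterisation of the radical -/
theorem zemanek {s : B} (h : ∀ b : B, ∃ C : ℝ, ∀ μ : ℂ, rr (b + μ • s) ≤ C) :
    s ∈ (⊥ : Ideal B).jacobson := by
  have h1 : ∀ b : B, ∀ μ : ℂ, rr (b + μ • s) ≤ rr b := by
    intro b μ
    obtain ⟨C, hC⟩ := h b
    have h2 := liouville (f := fun μ : ℂ => b + μ • s) (by fun_prop) hC μ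
    simpa using h2
  apply mem_jacobson_of_rr
  intro c
  set R : ℝ := 2 * ‖c‖ + 1 with hR
  have hc := norm_nonneg c
  have hR0 : 0 < R := by positivity
  have h2 := rr_le_of_circle (f := fun ν : ℂ => ν • s + c * s) (by fun_prop) hR0 (M := 0) (by
    intro ν hν
    have hν0 : ν ≠ 0 := by
      rintro rfl
      simp at hν
      linarith
    have h3 : rr ((1 + ν⁻¹ • c) * s) = 0 := by
      apply rr_small h1
      rw [norm_smul, norm_inv, hν, inv_mul_eq_div, div_lt_div_iff₀ hR0 two_pos]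
      rw [hR]; linarith
    have h4 : ν • s + c * s = algebraMap ℂ B ν * ((1 + ν⁻¹ • c) * s) := by
      rw [← Algebra.smul_def, add_mul, one_mul, smul_add, smul_mul_assoc, smul_smul,
        mul_inv_cancel₀ hν0, one_smul]
    show rr (ν • s + c * s) ≤ 0
    rw [h4, rr_mul_eq_zero (Algebra.commutes _ _) h3]) (z := 0) (by simpa using hR0.le)
  have h5 : rr (c * s) ≤ 0 := by simpa using h2
  exact le_antisymm h5 (rr_nonneg _)

/-- a central quasi-nilpotent element lies in the radical -/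
theorem central_mem_jacobson {q : B} (hq : rr q = 0) (hc : ∀ c : B, c * q = q * c) :
    q ∈ (⊥ : Ideal B).jacobson :=
  mem_jacobson_of_rr fun c => rr_mul_eq_zero (hc c) hq

/-- the exponential path -/
def cj (d a : B) (l : ℂ) : B := NormedSpace.exp (l • d) * a * NormedSpace.exp (-(l • d))

theorem exp_mul_exp_neg (x : B) : NormedSpace.exp x * NormedSpace.exp (-x) = 1 := by
  let _ := NormedAlgebra.restrictScalars ℚ ℂ B
  rw [← NormedSpace.exp_add_of_commute (Commute.neg_right (Commute.refl x)), add_neg_cancel,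
    NormedSpace.exp_zero]

theorem exp_neg_mul_exp (x : B) : NormedSpace.exp (-x) * NormedSpace.exp x = 1 := by
  have := exp_mul_exp_neg (-x)
  rwa [neg_neg] at this

/-- the exponential as a unit -/
def expu (x : B) : Bˣ := ⟨NormedSpace.exp x, NormedSpace.exp (-x), exp_mul_exp_neg x,
  exp_neg_mul_exp x⟩

theorem hasDerivAt_exp_zero (d : B) :
    HasDerivAt (fun l : ℂ => NormedSpace.exp (l • d)) d 0 := by
  have h := hasDerivAt_exp_smul_const (𝕂 := ℂ) d (0 : ℂ)
  simpa using h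

theorem differentiable_exp_smul (d : B) :
    Differentiable ℂ (fun l : ℂ => NormedSpace.exp (l • d)) := fun l =>
  (hasDerivAt_exp_smul_const (𝕂 := ℂ) d l).differentiableAt

theorem differentiable_exp_smul_neg (d : B) :
    Differentiable ℂ (fun l : ℂ => NormedSpace.exp (-(l • d))) := by
  have h := differentiable_exp_smul (-d)
  simpa [smul_neg] using h

theorem differentiable_cj (d a : B) : Differentiable ℂ (cj d a) :=
  ((differentiable_exp_smul d).mul_const a).mul (differentiable_exp_smul_neg d)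

theorem cj_zero (d a : B) : cj d a 0 = a := by simp [cj]

theorem hasDerivAt_cj (d a : B) : HasDerivAt (cj d a) (d * a - a * d) 0 := by
  have h1 := hasDerivAt_exp_zero d
  have h2 : HasDerivAt (fun l : ℂ => NormedSpace.exp (-(l • d))) (-d) 0 := by
    have := hasDerivAt_exp_zero (-d)
    simpa [smul_neg] using this
  have h3 := (h1.mul_const a).mul h2
  simp only [zero_smul, neg_zero, NormedSpace.exp_zero, one_mul, mul_one] at h3
  have h4 : d * a - a * d = d * a + a * -d := by rw [mul_neg]; abel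
  rw [h4]
  exact h3

theorem cj_eq_units (d a : B) (l : ℂ) :
    cj d a l = (expu (l • d) : B) * a * ((expu (l • d))⁻¹ : Bˣ) := rfl

theorem rr_cj (d a : B) (l : ℂ) : rr (cj d a l) = rr a := by
  rw [cj_eq_units, rr_units_conj]

/-- characterisation of the centre -/
theorem central_of_bound {z : B} {C : ℝ}
    (hJ : (⊥ : Ideal B).jacobson = ⊥)
    (h : ∀ b : B, ∀ μ : ℂ, rr (b + μ • z) ≤ rr b + C * ‖μ‖) (d : B) : d * z = z * d := by
  have h1 : ∀ b : B, ∀ μ : ℂ, rr (b + μ • (d * z - z * d)) ≤ rr b := by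
    intro b μ
    have h2 : deriv (cj d z) 0 = d * z - z * d := (hasDerivAt_cj d z).deriv
    rw [← h2]
    apply rr_deriv_le (differentiable_cj d z) b μ (C := 2 * |C| * ‖μ‖)
    intro l hl
    have hl' : 0 < ‖l‖ := norm_pos_iff.2 hl
    rw [cj_zero]
    set ν : ℂ := μ * l⁻¹ with hν
    have hνn : ‖ν‖ = ‖μ‖ / ‖l‖ := by rw [hν, norm_mul, norm_inv]; rfl
    have h3 : b + μ • l⁻¹ • (cj d z l - z) = (b + ν • cj d z l) + (-ν) • z := by
      rw [smul_smul, ← hν, smul_sub, neg_smul]; abel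
    have h4 : b + ν • cj d z l = cj d (cj d b (-l) + ν • z) l := by
      simp only [cj, mul_add, add_mul, neg_smul, neg_neg, mul_smul_comm, smul_mul_assoc]
      congr 1
      have e1 := exp_mul_exp_neg (l • d)
      calc b = (NormedSpace.exp (l • d) * NormedSpace.exp (-(l • d))) * b *
            (NormedSpace.exp (l • d) * NormedSpace.exp (-(l • d))) := by rw [e1]; simp
        _ = _ := by simp only [mul_assoc]
    rw [h3]
    calc rr (b + ν • cj d z l + (-ν) • z) ≤ rr (b + ν • cj d z l) + C * ‖-ν‖ := h _ _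
      _ = rr (cj d b (-l) + ν • z) + C * ‖ν‖ := by rw [norm_neg, h4, rr_cj]
      _ ≤ (rr (cj d b (-l)) + C * ‖ν‖) + C * ‖ν‖ := by gcongr; exact h _ _
      _ = rr b + 2 * C * ‖ν‖ := by rw [rr_cj]; ring
      _ ≤ rr b + 2 * |C| * ‖ν‖ := by gcongr; exact le_abs_self C
      _ = rr b + 2 * |C| * ‖μ‖ / ‖l‖ := by rw [hνn]; ring
  have h2 : d * z - z * d ∈ (⊥ : Ideal B).jacobson := zemanek fun b => ⟨rr b, h1 b⟩
  rw [hJ, Ideal.mem_bot] at h2
  exact sub_eq_zero.1 h2

/-- automatic continuity, first step -/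
theorem separating {A : Type*} [NormedAddCommGroup A] [NormedSpace ℂ A] (T : A →ₗ[ℂ] B)
    {M : ℝ} (hM0 : 0 ≤ M) (hM : ∀ x, rr (T x) ≤ M * ‖x‖) {x : ℕ → A} {s : B}
    (hx : Tendsto x atTop (𝓝 0)) (hs : Tendsto (fun n => T (x n)) atTop (𝓝 s))
    {a c : A} (ha : T a = s) (μ : ℂ) : rr (T c + μ • s) ≤ ‖T c‖ + 1 := by
  set b := T c with hb
  -- inner radius
  obtain ⟨δ, hδ0, hδ1, hδ⟩ : ∃ δ : ℝ, 0 < δ ∧ δ < 1 ∧ ‖μ‖ * (δ * ‖s‖) < 1 / 2 := by
    refine ⟨1 / (2 * (‖μ‖ * ‖s‖ + 1)), by positivity, ?_, ?_⟩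
    · rw [div_lt_one (by positivity)]
      have : 0 ≤ ‖μ‖ * ‖s‖ := by positivity
      linarith
    · have h0 : 0 ≤ ‖μ‖ * ‖s‖ := by positivity
      rw [show ‖μ‖ * (1 / (2 * (‖μ‖ * ‖s‖ + 1)) * ‖s‖) = (‖μ‖ * ‖s‖) / (2 * (‖μ‖ * ‖s‖ + 1)) by ring,
        div_lt_div_iff₀ (by positivity) two_pos]
      linarith
  set C : ℝ := M * (‖c‖ + ‖μ‖ * ‖a‖) + 1 with hC
  have hC0 : 0 < C := by positivity
  have hm0 : 0 < ‖b‖ + 1 := by positivity
  refine ge_of_tendsto (tendsto_interp (a := Real.log 1 - Real.log δ) (b := Real.log δ) hm0 hC0) ?_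
  filter_upwards [eventually_gt_atTop 1] with R hR
  -- choose n
  have e1 : ∀ᶠ n in atTop, ‖b‖ + ‖μ‖ * (δ * ‖T (x n)‖ + ‖s - T (x n)‖) < ‖b‖ + 1 := by
    have t1 : Tendsto (fun n => ‖b‖ + ‖μ‖ * (δ * ‖T (x n)‖ + ‖s - T (x n)‖)) atTop
        (𝓝 (‖b‖ + ‖μ‖ * (δ * ‖s‖ + ‖s - s‖))) :=
      tendsto_const_nhds.add ((((hs.norm).const_mul δ).add ((tendsto_const_nhds.sub hs).norm)).const_mul _)
    rw [sub_self, norm_zero, add_zero] at t1
    exact t1.eventually_lt_const (by linarith)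
  have e2 : ∀ᶠ n in atTop, M * (‖c‖ + ‖μ‖ * (‖a‖ + (R + 1) * ‖x n‖)) < C := by
    have t1 : Tendsto (fun n => M * (‖c‖ + ‖μ‖ * (‖a‖ + (R + 1) * ‖x n‖))) atTop
        (𝓝 (M * (‖c‖ + ‖μ‖ * (‖a‖ + (R + 1) * ‖(0 : A)‖)))) :=
      (tendsto_const_nhds.add ((tendsto_const_nhds.add (hx.norm.const_mul _)).const_mul _)).const_mul _
    rw [norm_zero, mul_zero, add_zero] at t1
    exact t1.eventually_lt_const (by rw [hC]; linarith)
  obtain ⟨n, hn1, hn2⟩ := (e1.and e2).exists
  let P : ℂ → B := fun l => b + μ • (l • T (x n) + (s - T (x n)))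
  have hP : Differentiable ℂ P := by fun_prop
  have hPT : ∀ l, P l = T (c + μ • (l • x n + (a - x n))) := by
    intro l
    simp only [P, map_add, map_smul, map_sub, ha, hb]
  have hP1 : P 1 = b + μ • s := by
    simp only [P, one_smul]
    congr 2
    abel
  have key := three_circles hP hδ0 (show δ < R by linarith) hm0 hC0
    (by
      intro l hl
      refine (rr_le_norm _).trans_lt (lt_of_le_of_lt ?_ hn1)
      refine (norm_add_le _ _).trans ?_
      gcongr
      rw [norm_smul]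
      gcongr
      refine (norm_add_le _ _).trans ?_
      rw [norm_smul, hl])
    (by
      intro l hl
      rw [hPT]
      refine (hM _).trans_lt (lt_of_le_of_lt ?_ hn2)
      gcongr
      refine (norm_add_le _ _).trans ?_
      gcongr
      rw [norm_smul]
      gcongr
      refine (norm_add_le _ _).trans ?_
      rw [norm_smul, hl]
      have := norm_sub_le a (x n)
      linarith)
    (z := 1) (by simpa using hδ1.le) (by simpa using hR.le)
  rw [hP1, norm_one] at key
  exact key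

/-- automatic continuity of spectrally bounded surjections onto semisimple Banach algebras -/
theorem continuous_of_spectrally_bounded {A : Type*} [NormedAddCommGroup A] [NormedSpace ℂ A]
    [CompleteSpace A] (T : A →ₗ[ℂ] B) (hT : Function.Surjective T)
    (hJ : (⊥ : Ideal B).jacobson = ⊥)
    {M : ℝ} (hM0 : 0 ≤ M) (hM : ∀ x, rr (T x) ≤ M * ‖x‖) : Continuous T := by
  apply LinearMap.continuous_of_seq_closed_graph
  intro u x y hu hy
  have h1 : Tendsto (fun n => u n - x) atTop (𝓝 0) := by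
    have := hu.sub_const x
    rwa [sub_self] at this
  have h2 : Tendsto (fun n => T (u n - x)) atTop (𝓝 (y - T x)) := by
    simp only [map_sub]
    exact hy.sub_const _
  obtain ⟨a, ha⟩ := hT (y - T x)
  have h3 : y - T x ∈ (⊥ : Ideal B).jacobson := by
    apply zemanek
    intro b
    obtain ⟨c, rfl⟩ := hT b
    exact ⟨‖T c‖ + 1, fun μ => separating T hM0 hM h1 h2 ha μ⟩
  rw [hJ, Ideal.mem_bot] at h3
  exact sub_eq_zero.1 h3

end Pool.Agent.Helper757.SB
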