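import Mathlib
import Pool.Agent.Helper757.SB.Zem

/-!
The abstract theorem: Lie ideals and spectrally bounded surjections.
-/

set_option autoImplicit false

open Filter Topology

noncomputable section

namespace Pool.Agent.Helper757.SB

section algebra

variable {A : Type*} [Ring A] [Algebra ℂ A]

/-- Herstein's dichotomy for Lie ideals of a simple ring -/
theorem herstein (V : Submodule ℂ A) (hV : ∀ a ∈ V, ∀ c, c * a - a * c ∈ V)
    (hs : ∀ k : A, k ≠ 0 → ∃ (n : ℕ) (x y : Fin n → A), ∑ i, x i * k * y i = 1) :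
    (∀ a ∈ V, ∀ x, a * (a * x - x * a) - (a * x - x * a) * a = 0) ∨
      (∀ x y : A, x * y - y * x ∈ V) := by
  let S : A → Prop := fun x => ∀ y, x * y - y * x ∈ V
  have hneg : ∀ a ∈ V, ∀ c, a * c - c * a ∈ V := by
    intro a ha c
    have := V.neg_mem (hV a ha c)
    rwa [neg_sub] at this
  have hVS : ∀ a ∈ V, S a := fun a ha y => hneg a ha y
  have hmul : ∀ x z, S x → S z → S (x * z) := by
    intro x z hx hz y
    have h := V.add_mem (hx (z * y)) (hz (y * x))
    have e : x * z * y - y * (x * z) = x * (z * y) - z * y * x + (z * (y * x) - y * x * z) := by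
      noncomm_ring
    rw [e]; exact h
  have hadd : ∀ x z, S x → S z → S (x + z) := by
    intro x z hx hz y
    have h := V.add_mem (hx y) (hz y)
    have e : (x + z) * y - y * (x + z) = x * y - y * x + (z * y - y * z) := by noncomm_ring
    rw [e]; exact h
  have hsub : ∀ x z, S x → S z → S (x - z) := by
    intro x z hx hz y
    have h := V.sub_mem (hx y) (hz y)
    have e : (x - z) * y - y * (x - z) = x * y - y * x - (z * y - y * z) := by noncomm_ring
    rw [e]; exact h
  have hzero : S 0 := by
    intro y; simp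
  by_cases hcomm : ∀ s t, S s → S t → s * t - t * s = 0
  · left
    intro a ha x
    exact hcomm a _ (hVS a ha) (hVS _ (hneg a ha x))
  · right
    push Not at hcomm
    obtain ⟨s, t, hsS, htS, hk⟩ := hcomm
    set k := s * t - t * s with hkdef
    have h1 : ∀ r, S (k * r) := by
      intro r
      have e : k * r = (s * (t * r) - t * r * s) - t * (s * r - r * s) := by
        rw [hkdef]; noncomm_ring
      rw [e]
      exact hsub _ _ (hVS _ (hsS _)) (hmul _ _ htS (hVS _ (hsS r)))
    have h2 : ∀ r' r, S (r' * k * r) := by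
      intro r' r
      have e : r' * k * r = (r' * (k * r) - k * r * r') + k * (r * r') := by noncomm_ring
      rw [e]
      refine hadd _ _ (hVS _ ?_) (h1 _)
      have := V.neg_mem (h1 r r')
      rwa [neg_sub] at this
    obtain ⟨n, x, y, hxy⟩ := hs k hk
    have h3 : ∀ z, S z := by
      intro z
      have e : z = ∑ i, z * x i * k * y i := by
        calc z = z * 1 := (mul_one z).symm
          _ = z * ∑ i, x i * k * y i := by rw [hxy]
          _ = _ := by
            rw [Finset.mul_sum]
            exact Finset.sum_congr rfl fun i _ => by noncomm_ring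
      rw [e]
      exact Finset.sum_induction _ S hadd hzero (fun i _ => h2 _ _)
    exact fun x y => h3 x y

end algebra

variable {B : Type*} [NormedRing B] [NormedAlgebra ℂ B] [CompleteSpace B]

theorem rr_smul_le (c : ℂ) (x : B) : rr (c • x) ≤ ‖c‖ * rr x := by
  have h : ∀ ρ, rr x < ρ → rr (c • x) ≤ ‖c‖ * ρ := by
    intro ρ hρ
    have hρ0 : 0 < ρ := (rr_nonneg x).trans_lt hρ
    obtain ⟨K, hK0, hK⟩ := exists_growth x hρ
    apply rr_le_of_growth (K := K) _ (by positivity)
    intro n
    rw [smul_pow, norm_smul, norm_pow, mul_pow]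
    calc ‖c‖ ^ n * ‖x ^ n‖ ≤ ‖c‖ ^ n * (K * ρ ^ n) := by gcongr; exact hK n
      _ = _ := by ring
  have ht : Tendsto (fun ρ : ℝ => ‖c‖ * ρ) (𝓝[>] rr x) (𝓝 (‖c‖ * rr x)) :=
    (tendsto_id.const_mul _).mono_left nhdsWithin_le_nhds
  exact ge_of_tendsto ht (eventually_nhdsWithin_of_forall h)

variable {A : Type*} [NormedRing A] [NormedAlgebra ℂ A] [CompleteSpace A]

/-- The abstract theorem. -/
theorem abstract_main (T : A →ₗ[ℂ] B) (hT : Function.Surjective T)
    (hJ : (⊥ : Ideal B).jacobson = ⊥)
    (hs : ∀ k : A, k ≠ 0 → ∃ (n : ℕ) (x y : Fin n → A), ∑ i, x i * k * y i = 1)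
    (hc : ∀ a : A, (∀ x, a * (a * x - x * a) - (a * x - x * a) * a = 0) → ∃ c : ℂ, a = c • 1)
    (hd : ∀ a : A, ∀ ε > 0, ∃ c : ℂ, ∃ k ∈ Submodule.span ℂ {z : A | ∃ x y, z = x * y - y * x},
      ‖a - c • (1 : A) - k‖ < ε)
    {M : ℝ} (hM0 : 0 ≤ M) (hM : ∀ x, rr (T x) ≤ M * ‖x‖)
    (hcj : ∀ d a : A, ∃ C, ∀ l, rr (T (cj d a l)) ≤ C) :
    ∃ c : ℂ, c ≠ 0 ∧ T 1 = c • (1 : B) := by
  -- final argument
  have hend : ∀ μ : ℂ, (1 : B) = μ • T 1 → ∃ c : ℂ, c ≠ 0 ∧ T 1 = c • (1 : B) := by
    intro μ hμ
    rcases subsingleton_or_nontrivial B with hB | hB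
    · exact ⟨1, one_ne_zero, Subsingleton.elim _ _⟩
    · have hμ0 : μ ≠ 0 := by
        rintro rfl
        rw [zero_smul] at hμ
        exact one_ne_zero hμ
      refine ⟨μ⁻¹, inv_ne_zero hμ0, ?_⟩
      rw [hμ, smul_smul, inv_mul_cancel₀ hμ0, one_smul]
  have hTc : Continuous T := continuous_of_spectrally_bounded T hT hJ hM0 hM
  let T' : A →L[ℂ] B := ⟨T, hTc⟩
  have hT' : ∀ x, T' x = T x := fun _ => rfl
  have hF : ∀ d a : A, Differentiable ℂ (fun l => T (cj d a l)) := fun d a =>
    T'.differentiable.comp (differentiable_cj d a)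
  have hFd : ∀ d a : A, HasDerivAt (fun l => T (cj d a l)) (T (d * a - a * d)) 0 := fun d a =>
    T'.hasFDerivAt.comp_hasDerivAt 0 (hasDerivAt_cj d a)
  have hinv : ∀ d a : A, ∀ l, rr (T (cj d a l)) ≤ rr (T a) := by
    intro d a l
    obtain ⟨C, hC⟩ := hcj d a
    have h := liouville (hF d a) hC l
    simpa [cj_zero] using h
  -- the Lie ideal
  let V : Submodule ℂ A :=
    { carrier := {a | ∀ b : B, b * T a = T a * b}
      add_mem' := by
        intro x y hx hy b
        rw [map_add, mul_add, add_mul, hx b, hy b]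
      zero_mem' := by intro b; simp
      smul_mem' := by
        intro c x hx b
        rw [map_smul, mul_smul_comm, smul_mul_assoc, hx b] }
  have hVmem : ∀ a, a ∈ V ↔ ∀ b : B, b * T a = T a * b := fun a => Iff.rfl
  have hV1 : ∀ a ∈ V, ∀ d l, cj d a l ∈ V := by
    intro a ha d l
    rw [hVmem]
    apply central_of_bound (C := ‖T a‖) hJ
    intro b μ
    obtain ⟨y, rfl⟩ := hT b
    have e1 : T y + μ • T (cj d a l) = T (cj d (cj d y (-l) + μ • a) l) := by
      rw [← map_smul, ← map_add]
      congr 1
      simp only [cj, mul_add, add_mul, neg_smul, neg_neg, mul_smul_comm, smul_mul_assoc]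
      congr 1
      have e1 := exp_mul_exp_neg (l • d)
      calc y = (NormedSpace.exp (l • d) * NormedSpace.exp (-(l • d))) * y *
            (NormedSpace.exp (l • d) * NormedSpace.exp (-(l • d))) := by rw [e1]; simp
        _ = _ := by simp only [mul_assoc]
    rw [e1]
    calc rr (T (cj d (cj d y (-l) + μ • a) l)) ≤ rr (T (cj d y (-l) + μ • a)) := hinv _ _ _
      _ = rr (T (cj d y (-l)) + μ • T a) := by rw [map_add, map_smul]
      _ ≤ rr (T (cj d y (-l))) + ‖μ • T a‖ := by
          apply rr_add_le
          show _ * _ = _ * _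
          rw [mul_smul_comm, smul_mul_assoc, (hVmem a).1 ha]
      _ ≤ rr (T y) + ‖T a‖ * ‖μ‖ := by
          rw [norm_smul, mul_comm]
          gcongr
          exact hinv _ _ _
  have hV2 : ∀ a ∈ V, ∀ c, c * a - a * c ∈ V := by
    intro a ha c
    rw [hVmem]
    intro b
    have h1 : HasDerivAt (fun l => b * T (cj c a l) - T (cj c a l) * b)
        (b * T (c * a - a * c) - T (c * a - a * c) * b) 0 :=
      ((hFd c a).const_mul b).sub ((hFd c a).mul_const b)
    have h2 : (fun l => b * T (cj c a l) - T (cj c a l) * b) = fun _ => (0 : B) := by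
      funext l
      rw [(hVmem _).1 (hV1 a ha c l) b, sub_self]
    rw [h2] at h1
    have h3 := h1.unique (hasDerivAt_const (0 : ℂ) (0 : B))
    exact sub_eq_zero.1 h3
  rcases herstein V hV2 hs with hcase | hcase
  · obtain ⟨a, ha⟩ := hT 1
    have haV : a ∈ V := by
      rw [hVmem]; intro b; rw [ha]; simp
    obtain ⟨μ, hμ⟩ := hc a (hcase a haV)
    apply hend μ
    rw [← ha, hμ, map_smul]
  · -- T kills commutators
    have hkill : ∀ c a : A, T (c * a - a * c) = 0 := by
      intro c a
      set q := T (c * a - a * c) with hq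
      have hqc : ∀ b : B, b * q = q * b := (hVmem _).1 (hcase c a)
      obtain ⟨C, hC⟩ := hcj c a
      have h1 : rr (0 + (1 : ℂ) • deriv (fun l => T (cj c a l)) 0) ≤ 0 := by
        apply rr_deriv_le (hF c a) 0 1 (C := C + ‖T a‖)
        intro l hl
        rw [zero_add, one_smul, zero_add, cj_zero]
        have e1 : cj c a l - a = (NormedSpace.exp (l • c) * a) * NormedSpace.exp (-(l • c)) -
            NormedSpace.exp (-(l • c)) * (NormedSpace.exp (l • c) * a) := by
          rw [← mul_assoc (NormedSpace.exp (-(l • c))), exp_neg_mul_exp, one_mul]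
          rfl
        have e2 : cj c a l - a ∈ V := by rw [e1]; exact hcase _ _
        have e3 : T (cj c a l) * T a = T a * T (cj c a l) := by
          have := (hVmem _).1 e2 (T a)
          rw [map_sub, mul_sub, sub_mul] at this
          exact (sub_left_inj.1 this).symm
        have e4 : rr (T (cj c a l) - T a) ≤ C + ‖T a‖ := by
          rw [sub_eq_add_neg]
          refine (rr_add_le ?_).trans ?_
          · show _ * _ = _ * _
            rw [mul_neg, neg_mul, e3]
          · rw [norm_neg]
            gcongr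
            exact hC l
        refine (rr_smul_le _ _).trans ?_
        rw [norm_inv, inv_mul_eq_div]
        gcongr
      rw [(hFd c a).deriv, zero_add, one_smul] at h1
      have h2 : q ∈ (⊥ : Ideal B).jacobson :=
        central_mem_jacobson (le_antisymm h1 (rr_nonneg _)) hqc
      rwa [hJ, Ideal.mem_bot] at h2
    have hspan : ∀ k ∈ Submodule.span ℂ {z : A | ∃ x y, z = x * y - y * x}, T k = 0 := by
      intro k hk
      induction hk using Submodule.span_induction with
      | mem z hz => obtain ⟨x, y, rfl⟩ := hz; exact hkill x y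
      | zero => simp
      | add x y _ _ hx hy => rw [map_add, hx, hy, add_zero]
      | smul c x _ hx => rw [map_smul, hx, smul_zero]
    have hcl : IsClosed ((Submodule.span ℂ {T 1} : Submodule ℂ B) : Set B) :=
      Submodule.closed_of_finiteDimensional _
    have hall : ∀ a, T a ∈ Submodule.span ℂ {T 1} := by
      intro a
      have h1 : T a ∈ closure ((Submodule.span ℂ {T 1} : Submodule ℂ B) : Set B) := by
        rw [Metric.mem_closure_iff]
        intro ε hε
        obtain ⟨c, k, hk, hck⟩ := hd a (ε / (‖T'‖ + 1)) (by positivity)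
        refine ⟨c • T 1, Submodule.smul_mem _ _ (Submodule.mem_span_singleton_self _), ?_⟩
        rw [dist_eq_norm]
        have h2 : T a - c • T 1 = T' (a - c • (1 : A) - k) := by
          rw [hT', map_sub, map_sub, map_smul, hspan k hk, sub_zero]
        rw [h2]
        calc ‖T' (a - c • (1 : A) - k)‖ ≤ ‖T'‖ * ‖a - c • (1 : A) - k‖ := T'.le_opNorm _
          _ ≤ (‖T'‖ + 1) * ‖a - c • (1 : A) - k‖ := by gcongr; linarith
          _ < (‖T'‖ + 1) * (ε / (‖T'‖ + 1)) := by gcongr
          _ = ε := by field_simp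
      rwa [hcl.closure_eq] at h1
    obtain ⟨a, ha⟩ := hT 1
    have h1 := hall a
    rw [ha, Submodule.mem_span_singleton] at h1
    obtain ⟨μ, hμ⟩ := h1
    exact hend μ hμ.symm

end Pool.Agent.Helper757.SB
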