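import Mathlib
import Pool.Agent.Helper757.SB.Abs

/-!
From a concrete finite factor to the abstract theorem.
-/

set_option autoImplicit false

open Filter Topology

noncomputable section

namespace Pool.Agent.Helper757.SB

variable {H : Type*} [NormedAddCommGroup H] [InnerProductSpace ℂ H] [CompleteSpace H]

theorem coe_exp (A : StarSubalgebra ℂ (H →L[ℂ] H)) [CompleteSpace A] (x : A) :
    ((NormedSpace.exp x : A) : H →L[ℂ] H) = NormedSpace.exp (x : H →L[ℂ] H) := by
  let _ := NormedAlgebra.restrictScalars ℚ ℂ A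
  let _ := NormedAlgebra.restrictScalars ℚ ℂ (H →L[ℂ] H)
  exact NormedSpace.map_exp A.subtype continuous_subtype_val x

theorem coe_cj (A : StarSubalgebra ℂ (H →L[ℂ] H)) [CompleteSpace A] (d a : A) (l : ℂ) :
    ((cj d a l : A) : H →L[ℂ] H) = cj (d : H →L[ℂ] H) (a : H →L[ℂ] H) l := by
  unfold cj
  rw [MulMemClass.coe_mul, MulMemClass.coe_mul, coe_exp, coe_exp]
  rfl

/-- a derivation of square zero vanishes -/
theorem scalar_of_double_comm (A : StarSubalgebra ℂ (H →L[ℂ] H))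
    (hfac : ∀ z ∈ A, (∀ a ∈ A, z * a = a * z) → ∃ c : ℂ, z = c • (1 : H →L[ℂ] H))
    (a : A) (h : ∀ x : A, a * (a * x - x * a) - (a * x - x * a) * a = 0) :
    ∃ c : ℂ, a = c • 1 := by
  let δ : A → A := fun x => a * x - x * a
  have h1 : ∀ x w, δ x * δ w = 0 := by
    intro x w
    have e1 := h (x * w)
    have e2 := h x
    have e3 := h w
    have e4 : (2 : ℂ) • (δ x * δ w) = (a * (a * (x * w) - x * w * a) - (a * (x * w) - x * w * a) * a)
        - (a * (a * x - x * a) - (a * x - x * a) * a) * w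
        - x * (a * (a * w - w * a) - (a * w - w * a) * a) := by
      rw [two_smul]; simp only [δ]; noncomm_ring
    rw [e1, e2, e3, zero_mul, mul_zero, sub_zero, sub_zero] at e4
    exact (smul_eq_zero.1 e4).resolve_left two_ne_zero
  have h2 : ∀ x y z, δ x * y * δ z = 0 := by
    intro x y z
    have e1 := h1 x (y * z)
    have e2 := h1 x y
    have e3 : δ (y * z) = δ y * z + y * δ z := by simp only [δ]; noncomm_ring
    rw [e3, mul_add, ← mul_assoc, e2, zero_mul, zero_add, ← mul_assoc] at e1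
    exact e1
  have h3 : ∀ x, δ x = 0 := by
    intro x
    have e1 := h2 x (star (δ x)) x
    have e2 : ((δ x : A) : H →L[ℂ] H) * star ((δ x : A) : H →L[ℂ] H) * ((δ x : A) : H →L[ℂ] H) = 0 := by
      have := congrArg (Subtype.val) e1
      exact this
    have e3 : ((δ x : A) : H →L[ℂ] H) = 0 := by
      set y := ((δ x : A) : H →L[ℂ] H)
      have e4 : star (star y * y) * (star y * y) = 0 := by
        rw [star_mul, star_star, mul_assoc, ← mul_assoc y, e2, mul_zero]
      have e5 := (CStarRing.star_mul_self_eq_zero_iff _).1 e4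
      exact (CStarRing.star_mul_self_eq_zero_iff _).1 e5
    exact Subtype.ext e3
  obtain ⟨c, hc⟩ := hfac a a.2 (fun x hx => by
    have e := h3 ⟨x, hx⟩
    have e2 := congrArg (Subtype.val) (sub_eq_zero.1 e)
    exact e2)
  exact ⟨c, Subtype.ext hc⟩

theorem rr_le_of_ennreal {X Y : Type*} [NormedRing X] [NormedAlgebra ℂ X] [CompleteSpace X]
    [NormedRing Y] [NormedAlgebra ℂ Y] [CompleteSpace Y] {x : X} {y : Y} {M : NNReal}
    (h : spectralRadius ℂ x ≤ (M : ENNReal) * spectralRadius ℂ y) : rr x ≤ M * rr y := by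
  unfold rr
  have h1 := ENNReal.toReal_mono (ENNReal.mul_ne_top ENNReal.coe_ne_top (sr_ne_top y)) h
  rwa [ENNReal.toReal_mul, ENNReal.coe_toReal] at h1

/-- The theorem for a von Neumann algebra satisfying the two structural facts. -/
theorem concrete_main {B : Type*} [NormedRing B] [NormedAlgebra ℂ B] [CompleteSpace B]
    (A : StarSubalgebra ℂ (H →L[ℂ] H))
    (hA : Set.centralizer (Set.centralizer (A : Set (H →L[ℂ] H))) = (A : Set (H →L[ℂ] H)))
    (hfac : ∀ z ∈ A, (∀ a ∈ A, z * a = a * z) → ∃ c : ℂ, z = c • (1 : H →L[ℂ] H))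
    (hS : ∀ k ∈ A, k ≠ 0 → ∃ (n : ℕ) (x y : Fin n → H →L[ℂ] H), (∀ i, x i ∈ A) ∧
      (∀ i, y i ∈ A) ∧ ∑ i, x i * k * y i = 1)
    (hD : ∀ a ∈ A, ∀ ε > 0, ∃ c : ℂ,
      ∃ k ∈ Submodule.span ℂ {z : H →L[ℂ] H | ∃ x ∈ A, ∃ y ∈ A, z = x * y - y * x},
      ‖a - c • (1 : H →L[ℂ] H) - k‖ < ε)
    (hJ : (⊥ : Ideal B).jacobson = ⊥)
    (T : A →ₗ[ℂ] B) (hT : Function.Surjective T)
    (hM : ∃ M : NNReal, ∀ x : A,
        spectralRadius ℂ (T x) ≤ (M : ENNReal) * spectralRadius ℂ (x : H →L[ℂ] H)) :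
    ∃ c : ℂ, c ≠ 0 ∧ T 1 = c • (1 : B) := by
  have hclosed : IsClosed (A : Set (H →L[ℂ] H)) := by
    rw [← hA]; exact Set.isClosed_centralizer _
  haveI : CompleteSpace A := hclosed.completeSpace_coe
  obtain ⟨M, hM⟩ := hM
  have hM' : ∀ x : A, rr (T x) ≤ M * rr (x : H →L[ℂ] H) := fun x => rr_le_of_ennreal (hM x)
  apply abstract_main (A := A) (M := M) T hT hJ
  · intro k hk
    obtain ⟨n, x, y, hx, hy, hxy⟩ := hS k k.2 (fun h => hk (Subtype.ext h))
    refine ⟨n, fun i => ⟨x i, hx i⟩, fun i => ⟨y i, hy i⟩, ?_⟩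
    apply Subtype.ext
    rw [AddSubmonoidClass.coe_finset_sum]
    simpa using hxy
  · exact scalar_of_double_comm A hfac
  · intro a ε hε
    obtain ⟨c, k, hk, hck⟩ := hD a a.2 ε hε
    have h1 : k ∈ Submodule.map (A.subtype.toAlgHom.toLinearMap)
        (Submodule.span ℂ {z : A | ∃ x y, z = x * y - y * x}) := by
      rw [Submodule.map_span]
      refine Submodule.span_mono ?_ hk
      rintro z ⟨x, hx, y, hy, rfl⟩
      exact ⟨⟨x, hx⟩ * ⟨y, hy⟩ - ⟨y, hy⟩ * ⟨x, hx⟩, ⟨_, _, rfl⟩, rfl⟩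
    obtain ⟨k', hk', rfl⟩ := h1
    exact ⟨c, k', hk', hck⟩
  · exact M.2
  · intro x
    refine (hM' x).trans ?_
    gcongr
    exact rr_le_norm _
  · intro d a
    refine ⟨M * rr (a : H →L[ℂ] H), fun l => ?_⟩
    refine (hM' _).trans (le_of_eq ?_)
    rw [coe_cj, rr_cj]

end Pool.Agent.Helper757.SB
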