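import Mathlib

set_option autoImplicit false

open ContinuousLinearMap

namespace Pool.Agent.Helper757.SB.VNa

variable {H : Type*} [NormedAddCommGroup H] [InnerProductSpace ℂ H] [CompleteSpace H]


theorem mulA (a b : H →L[ℂ] H) (x : H) : (a * b) x = a (b x) := rfl

theorem mem_iff_comm (M : VonNeumannAlgebra H) (x : H →L[ℂ] H) :
    x ∈ M ↔ ∀ y ∈ M.commutant, y * x = x * y := by
  conv_lhs => rw [← M.commutant_commutant]
  exact VonNeumannAlgebra.mem_commutant_iff

theorem ext_of_inner_self {a b : H →L[ℂ] H} (h : ∀ x, inner ℂ (a x) (x) = inner ℂ (b x) (x)) : a = b := by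
  have h1 : ∀ x, inner ℂ ((a - b) x) (x) = 0 := fun x => by
    rw [sub_apply, inner_sub_left, h, sub_self]
  have h2 := (inner_map_self_eq_zero ((a - b : H →L[ℂ] H) : H →ₗ[ℂ] H)).1 h1
  ext x
  have h3 := congrArg (fun f : H →ₗ[ℂ] H => f x) h2
  simpa [sub_eq_zero] using h3

/-- Graph lemma: an isometric relation invariant under the commutant is implemented by a partial
isometry of the algebra. -/
theorem exists_pisom (M : VonNeumannAlgebra H) (Γ : Submodule ℂ (H × H))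
    (hiso : ∀ z ∈ Γ, ‖z.1‖ = ‖z.2‖)
    (hinv : ∀ y ∈ M.commutant, ∀ z ∈ Γ, ((y z.1, y z.2) : H × H) ∈ Γ) :
    ∃ v ∈ M, (∀ z ∈ Γ, v z.1 = z.2) ∧ (∀ z ∈ Γ, (star v) z.2 = z.1) ∧
      IsStarProjection (star v * v) ∧ v * star v * v = v ∧
      (∀ a : H →L[ℂ] H, (∀ z ∈ Γ, a z.1 = 0) → a * (star v * v) = 0) ∧
      (∀ a : H →L[ℂ] H, (∀ z ∈ Γ, a z.2 = 0) → a * v = 0) := by
  set Γ' : Submodule ℂ (H × H) := Γ.topologicalClosure with hΓ'
  have hcl : IsClosed (Γ' : Set (H × H)) := Γ.isClosed_topologicalClosure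
  have hle : Γ ≤ Γ' := Γ.le_topologicalClosure
  have hiso' : ∀ z ∈ Γ', ‖z.1‖ = ‖z.2‖ := by
    intro z hz
    have hc : IsClosed {z : H × H | ‖z.1‖ = ‖z.2‖} :=
      isClosed_eq (continuous_fst.norm) (continuous_snd.norm)
    have : (Γ' : Set (H × H)) ⊆ {z : H × H | ‖z.1‖ = ‖z.2‖} := by
      rw [hΓ', Submodule.topologicalClosure_coe]
      exact closure_minimal hiso hc
    exact this hz
  have hinv' : ∀ y ∈ M.commutant, ∀ z ∈ Γ', ((y z.1, y z.2) : H × H) ∈ Γ' := by
    intro y hy z hz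
    have hcont : Continuous (fun z : H × H => ((y z.1, y z.2) : H × H)) := by fun_prop
    have h1 : (Γ' : Set (H × H)) ⊆ (fun z : H × H => ((y z.1, y z.2) : H × H)) ⁻¹' Γ' := by
      rw [hΓ', Submodule.topologicalClosure_coe]
      refine closure_minimal (fun w hw => ?_) ((isClosed_closure).preimage hcont)
      exact subset_closure (hinv y hy w hw)
    exact h1 hz
  have hΓc : CompleteSpace Γ' := hcl.completeSpace_coe
  -- the isometry fst
  have hnorm : ∀ z : Γ', ‖(z : H × H)‖ = ‖(z : H × H).1‖ := by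
    intro z
    rw [Prod.norm_def, hiso' z z.2, max_self]
  let f₁ : Γ' →ₗᵢ[ℂ] H :=
    { toLinearMap := (LinearMap.fst ℂ H H).comp Γ'.subtype
      norm_map' := fun z => (hnorm z).symm }
  let f₂ : Γ' →L[ℂ] H := (ContinuousLinearMap.snd ℂ H H).comp Γ'.subtypeL
  have hf₁ : ∀ z : Γ', f₁ z = (z : H × H).1 := fun z => rfl
  have hf₂ : ∀ z : Γ', f₂ z = (z : H × H).2 := fun z => rfl
  set K : Submodule ℂ H := f₁.toLinearMap.range with hK
  let e : Γ' ≃ₗᵢ[ℂ] K := f₁.equivRange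
  have hKc : CompleteSpace K := e.toIsometryEquiv.completeSpace_iff.1 hΓc
  let P : H →L[ℂ] K := K.orthogonalProjectionOnto
  let v : H →L[ℂ] H := f₂.comp ((e.symm.toContinuousLinearEquiv : K →L[ℂ] Γ').comp P)
  have he : ∀ z : Γ', e z = ⟨(z : H × H).1, ⟨z, rfl⟩⟩ := fun z => rfl
  have hv1 : ∀ z ∈ Γ', v z.1 = z.2 := by
    intro z hz
    have h1 : P z.1 = e ⟨z, hz⟩ := by
      have : P ((e ⟨z, hz⟩ : K) : H) = e ⟨z, hz⟩ :=
        Submodule.orthogonalProjectionOnto_mem_subspace_eq_self _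
      exact this
    change f₂ (e.symm (P z.1)) = z.2
    rw [h1, e.symm_apply_apply, hf₂]
  have hv0 : ∀ x ∈ Kᗮ, v x = 0 := by
    intro x hx
    have h1 : P x = 0 := Submodule.orthogonalProjectionOnto_apply_of_mem_orthogonal hx
    change f₂ (e.symm (P x)) = 0
    rw [h1]; simp
  set p : H →L[ℂ] H := K.starProjection with hp
  have hpstar : IsStarProjection p := isStarProjection_starProjection
  have hdec : ∀ x : H, x - p x ∈ Kᗮ := fun x => K.sub_starProjection_mem_orthogonal x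
  have hpK : ∀ x : H, p x ∈ K := fun x => K.starProjection_apply_mem x
  have hvp : ∀ x, v x = v (p x) := by
    intro x
    have h1 : v (x - p x) = 0 := hv0 _ (hdec x)
    rw [map_sub, sub_eq_zero] at h1
    exact h1
  have hKmem : ∀ x ∈ K, ∃ z ∈ Γ', z.1 = x := by
    rintro x ⟨z, rfl⟩
    exact ⟨z, z.2, rfl⟩
  have hnv : ∀ x, ‖v x‖ = ‖p x‖ := by
    intro x
    obtain ⟨z, hz, hzx⟩ := hKmem (p x) (hpK x)
    rw [hvp x, ← hzx, hv1 z hz, hiso' z hz]
  have hvv : star v * v = p := by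
    apply ext_of_inner_self
    intro x
    have h1 : inner ℂ ((star v * v) x) (x) = inner ℂ (v x) (v x) := by
      rw [mulA, star_eq_adjoint, adjoint_inner_left]
    have h2 : inner ℂ (p x) (x) = inner ℂ (p x) (p x) := by
      have h3 : inner ℂ (p x) (x - p x) = 0 := (hdec x) _ (hpK x)
      rw [inner_sub_right, sub_eq_zero] at h3
      exact h3
    rw [h1, h2, inner_self_eq_norm_sq_to_K, inner_self_eq_norm_sq_to_K, hnv]
  have hvpm : v * p = v := by
    ext x
    rw [mulA, ← hvp x]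
  have hinvK : ∀ y ∈ M.commutant, ∀ x ∈ K, y x ∈ K := by
    intro y hy x hx
    obtain ⟨z, hz, rfl⟩ := hKmem x hx
    exact ⟨⟨_, hinv' y hy z hz⟩, rfl⟩
  have hinvK' : ∀ y ∈ M.commutant, ∀ x ∈ Kᗮ, y x ∈ Kᗮ := by
    intro y hy x hx w hw
    have h1 : (star y) w ∈ K := hinvK (star y) (star_mem hy) w hw
    have h2 := hx _ h1
    rwa [star_eq_adjoint, adjoint_inner_left] at h2
  refine ⟨v, ?_, ?_, ?_, ?_, ?_, ?_, ?_⟩
  · rw [mem_iff_comm]
    intro y hy
    ext x
    rw [mulA, mulA]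
    have h1 : v x = v (p x) := hvp x
    have h2 : v (y x) = v (y (p x)) := by
      have h3 : v (y (x - p x)) = 0 := hv0 _ (hinvK' y hy _ (hdec x))
      rw [map_sub, map_sub, sub_eq_zero] at h3
      exact h3
    obtain ⟨z, hz, hzx⟩ := hKmem (p x) (hpK x)
    rw [h1, h2, ← hzx, hv1 z hz]
    exact (hv1 _ (hinv' y hy z hz)).symm
  · exact fun z hz => hv1 z (hle hz)
  · intro z hz
    have h1 : (star v * v) z.1 = p z.1 := by rw [hvv]
    rw [mulA, hv1 z (hle hz)] at h1
    rw [h1]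
    exact (K.starProjection_eq_self_iff).2 ⟨⟨z, hle hz⟩, rfl⟩
  · rw [hvv]; exact hpstar
  · rw [mul_assoc, hvv, hvpm]
  · intro a ha
    rw [hvv]
    ext x
    rw [mulA]
    obtain ⟨z, hz, hzx⟩ := hKmem (p x) (hpK x)
    rw [← hzx]
    have hc : IsClosed {z : H × H | a z.1 = 0} :=
      isClosed_eq (by fun_prop) continuous_const
    have h1 : (Γ' : Set (H × H)) ⊆ {z : H × H | a z.1 = 0} := by
      rw [hΓ', Submodule.topologicalClosure_coe]
      exact closure_minimal ha hc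
    exact h1 hz
  · intro a ha
    ext x
    rw [mulA, hvp x]
    obtain ⟨z, hz, hzx⟩ := hKmem (p x) (hpK x)
    rw [← hzx, hv1 z hz]
    have hc : IsClosed {z : H × H | a z.2 = 0} :=
      isClosed_eq (by fun_prop) continuous_const
    have h1 : (Γ' : Set (H × H)) ⊆ {z : H × H | a z.2 = 0} := by
      rw [hΓ', Submodule.topologicalClosure_coe]
      exact closure_minimal ha hc
    exact h1 hz

end Pool.Agent.Helper757.SB.VNa
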