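import Mathlib
import Pool.Agent.Helper757.SB.VNb

set_option autoImplicit false

open ContinuousLinearMap

namespace Pool.Agent.Helper757.SB.VNc

open Pool.Agent.Helper757.SB.VNa Pool.Agent.Helper757.SB.VNb

variable {H : Type*} [NormedAddCommGroup H] [InnerProductSpace ℂ H] [CompleteSpace H]

/-- M is a factor. -/
def Fac (M : VonNeumannAlgebra H) : Prop :=
  ∀ z ∈ M, (∀ x ∈ M, z * x = x * z) → ∃ c : ℂ, z = algebraMap ℂ (H →L[ℂ] H) c

/-- M is finite. -/
def Fin' (M : VonNeumannAlgebra H) : Prop :=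
  ∀ u ∈ M, star u * u = 1 → u * star u = 1

theorem factor_nonzero {M : VonNeumannAlgebra H} (hM : Fac M) {e f : H →L[ℂ] H}
    (he : Pr M e) (hf : Pr M f) (he0 : e ≠ 0) (hf0 : f ≠ 0) : ∃ m ∈ M, f * m * e ≠ 0 := by
  by_contra hcon
  push Not at hcon
  let K : Submodule ℂ H := Submodule.span ℂ {w | ∃ m ∈ M, ∃ ξ, w = m (e ξ)}
  have hKy : ∀ y ∈ M.commutant, ∀ x ∈ K, y x ∈ K := by
    intro y hy x hx
    induction hx using Submodule.span_induction with
    | mem x h =>
      obtain ⟨m, hm, ξ, rfl⟩ := h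
      refine Submodule.subset_span ⟨m, hm, y ξ, ?_⟩
      have e1 := comm_of_mem (mul_mem hm he.1) hy
      have := congrArg (fun T : H →L[ℂ] H => T ξ) e1
      exact this
    | zero => rw [map_zero]; exact zero_mem _
    | add x y _ _ h1 h2 => rw [map_add]; exact add_mem h1 h2
    | smul c x _ h => rw [map_smul]; exact Submodule.smul_mem _ _ h
  have hKm : ∀ m' ∈ M, ∀ x ∈ K, m' x ∈ K := by
    intro m' hm' x hx
    induction hx using Submodule.span_induction with
    | mem x h =>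
      obtain ⟨m, hm, ξ, rfl⟩ := h
      exact Submodule.subset_span ⟨m' * m, mul_mem hm' hm, ξ, rfl⟩
    | zero => rw [map_zero]; exact zero_mem _
    | add x y _ _ h1 h2 => rw [map_add]; exact add_mem h1 h2
    | smul c x _ h => rw [map_smul]; exact Submodule.smul_mem _ _ h
  obtain ⟨q, hq, hq1, hq2⟩ := exists_proj M K hKy
  have hqm : ∀ m' ∈ M, q * m' * q = m' * q := by
    intro m' hm'
    have h1 : ((1 - q) * m') * q = 0 := by
      apply hq2
      intro x hx
      rw [mulA]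
      have := hq1 _ (hKm m' hm' x hx)
      change m' x - q (m' x) = 0
      rw [this, sub_self]
    rw [sub_mul, one_mul, sub_mul, sub_eq_zero] at h1
    exact h1.symm
  have hcen : ∀ x ∈ M, q * x = x * q := by
    intro x hx
    have h1 := hqm x hx
    have h2 := congrArg star (hqm (star x) (star_mem hx))
    rw [star_mul, star_mul, star_mul, star_star, hq.2.2, ← mul_assoc] at h2
    rw [← h1, h2]
  obtain ⟨c, hc⟩ := hM q hq.1 hcen
  have hqe : q * e = e := by
    ext ξ
    rw [mulA]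
    exact hq1 _ (Submodule.subset_span ⟨1, one_mem M, ξ, rfl⟩)
  have hc1 : c = 1 := by
    have h1 : c • e = e := by
      rw [hc, Algebra.algebraMap_eq_smul_one, smul_mul_assoc, one_mul] at hqe
      exact hqe
    have h2 : (c - 1) • e = 0 := by rw [sub_smul, h1, one_smul, sub_self]
    rcases smul_eq_zero.1 h2 with h3 | h3
    · exact sub_eq_zero.1 h3
    · exact absurd h3 he0
  have hq1' : q = 1 := by rw [hc, hc1, map_one]
  have hfq : f * q = 0 := by
    apply hq2
    intro x hx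
    induction hx using Submodule.span_induction with
    | mem x h =>
      obtain ⟨m, hm, ξ, rfl⟩ := h
      have := congrArg (fun T : H →L[ℂ] H => T ξ) (hcon m hm)
      exact this
    | zero => rw [map_zero]
    | add x y _ _ h1 h2 => rw [map_add, h1, h2, add_zero]
    | smul c x _ h => rw [map_smul, h, smul_zero]
  rw [hq1', mul_one] at hfq
  exact hf0 hfq

theorem nonzero_sub {M : VonNeumannAlgebra H} (hM : Fac M) {e f : H →L[ℂ] H}
    (he : Pr M e) (hf : Pr M f) (he0 : e ≠ 0) (hf0 : f ≠ 0) :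
    ∃ v ∈ M, v ≠ 0 ∧ Pr M (star v * v) ∧ e * (star v * v) = star v * v ∧ f * v = v := by
  obtain ⟨m, hm, hx0⟩ := factor_nonzero hM he hf he0 hf0
  obtain ⟨v, hv, h1, h2, h3, h4⟩ := exists_polar M (mul_mem (mul_mem hf.1 hm) he.1)
  have h5 : v * (1 - e) = 0 := by
    apply h3
    rw [mul_sub, mul_one, mul_assoc (f * m) e e, he.2.1, sub_self]
  have h6 : (1 - f) * v = 0 := by
    apply h4
    rw [sub_mul, one_mul, ← mul_assoc, ← mul_assoc, hf.2.1, sub_self]
  refine ⟨v, hv, ?_, h1, ?_, ?_⟩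
  · rintro rfl
    rw [mul_zero, mul_zero] at h2
    exact hx0 h2.symm
  · have h7 : star v * v * (1 - e) = 0 := by rw [mul_assoc, h5, mul_zero]
    have h8 := congrArg star h7
    rw [star_mul, h1.2.2, star_zero, star_sub, star_one, he.2.2, sub_mul, one_mul,
      sub_eq_zero] at h8
    exact h8.symm
  · rw [sub_mul, one_mul, sub_eq_zero] at h6
    exact h6.symm

theorem pi_norm {v e : H →L[ℂ] H} (he : e * e = e) (h : star v * v = e) (ξ : H) :
    ‖e ξ‖ = ‖v ξ‖ := by
  have hs : star e = e := by rw [← h, star_mul, star_star]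
  have h1 : inner ℂ (e ξ) (e ξ) = inner ℂ (v ξ) (v ξ) := by
    have h2 : inner ℂ ((star e * e) ξ) ξ = inner ℂ (e ξ) (e ξ) := by
      rw [mulA, star_eq_adjoint, adjoint_inner_left]
    have h3 : inner ℂ ((star v * v) ξ) ξ = inner ℂ (v ξ) (v ξ) := by
      rw [mulA, star_eq_adjoint, adjoint_inner_left]
    rw [← h2, ← h3, h, hs, he]
  rw [inner_self_eq_norm_sq_to_K, inner_self_eq_norm_sq_to_K] at h1
  have h4 : ‖e ξ‖ ^ 2 = ‖v ξ‖ ^ 2 := by exact_mod_cast h1
  nlinarith [norm_nonneg (e ξ), norm_nonneg (v ξ)]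

theorem compare {M : VonNeumannAlgebra H} (hM : Fac M) {e f : H →L[ℂ] H}
    (he : Pr M e) (hf : Pr M f) : Sub M e f ∨ Sub M f e := by
  let S : Set (Submodule ℂ (H × H)) := {Γ | (∀ z ∈ Γ, ‖z.1‖ = ‖z.2‖) ∧
    (∀ y ∈ M.commutant, ∀ z ∈ Γ, ((y z.1, y z.2) : H × H) ∈ Γ) ∧
    ∀ z ∈ Γ, e z.1 = z.1 ∧ f z.2 = z.2}
  have hz : ∃ m, Maximal (· ∈ S) m := by
    apply zorn_le₀
    intro c hcS hc
    rcases c.eq_empty_or_nonempty with rfl | hne
    · refine ⟨⊥, ⟨?_, ?_, ?_⟩, by simp⟩
      · intro z hz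
        rw [Submodule.mem_bot] at hz; subst hz; simp
      · intro y hy z hz
        rw [Submodule.mem_bot] at hz; subst hz
        simp [Prod.ext_iff]
      · intro z hz
        rw [Submodule.mem_bot] at hz; subst hz; simp
    · have hmem : ∀ z, z ∈ sSup c ↔ ∃ y ∈ c, z ∈ y := fun z =>
        Submodule.mem_sSup_of_directed hne hc.directedOn
      refine ⟨sSup c, ⟨?_, ?_, ?_⟩, fun Γ hΓ => le_sSup hΓ⟩
      · intro z hz
        obtain ⟨Γ, hΓ, hz⟩ := (hmem z).1 hz
        exact (hcS hΓ).1 z hz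
      · intro y hy z hz
        obtain ⟨Γ, hΓ, hz⟩ := (hmem z).1 hz
        exact (hmem _).2 ⟨Γ, hΓ, (hcS hΓ).2.1 y hy z hz⟩
      · intro z hz
        obtain ⟨Γ, hΓ, hz⟩ := (hmem z).1 hz
        exact (hcS hΓ).2.2 z hz
  obtain ⟨Γ, hΓ, hmax⟩ := hz
  obtain ⟨v, hv, h1, h2, h3, h4, h5, h6⟩ := exists_pisom M Γ hΓ.1 hΓ.2.1
  set e₁ := star v * v with he₁
  have hpr : Pr M e₁ := ⟨mul_mem (star_mem hv) hv, h3.isIdempotentElem, h3.isSelfAdjoint⟩
  have hee : e * e₁ = e₁ := by
    have := h5 (1 - e) (fun z hz => by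
      change z.1 - e z.1 = 0
      rw [(hΓ.2.2 z hz).1, sub_self])
    rw [sub_mul, one_mul, sub_eq_zero] at this
    exact this.symm
  have hfv : f * v = v := by
    have := h6 (1 - f) (fun z hz => by
      change z.2 - f z.2 = 0
      rw [(hΓ.2.2 z hz).2, sub_self])
    rw [sub_mul, one_mul, sub_eq_zero] at this
    exact this.symm
  have hve : v * e₁ = v := pi_mul hpr.2.1 he₁.symm
  have hf₁ : Pr M (v * star v) := pi_pr hv hpr.2.1 he₁.symm
  have hff : f * (v * star v) = v * star v := by rw [← mul_assoc, hfv]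
  by_cases hcase1 : e₁ = e
  · left
    exact ⟨v, hv, by rw [← hcase1], hfv⟩
  by_cases hcase2 : v * star v = f
  · right
    refine ⟨star v, star_mem hv, by rw [star_star, hcase2], ?_⟩
    have h7 := congrArg star hve
    rw [star_mul, hpr.2.2] at h7
    rw [← h7, ← mul_assoc, hee]
  exfalso
  have hE : Pr M (e - e₁) := pr_sub hpr he hee
  have hF : Pr M (f - v * star v) := pr_sub hf₁ hf hff
  obtain ⟨w, hw, hw0, hw1, hw2, hw3⟩ := nonzero_sub hM hE hF
    (fun h => hcase1 (sub_eq_zero.1 h).symm) (fun h => hcase2 (sub_eq_zero.1 h).symm)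
  set ew := star w * w with hew
  have he₁e : e₁ * e = e₁ := left_of_right hpr.2.2 he.2.2 hee
  have h10 : e₁ * ew = 0 := by
    rw [← hw2, ← mul_assoc, mul_sub, hpr.2.1, he₁e, sub_self, zero_mul]
  have h10' : ew * e₁ = 0 := by
    have := congrArg star h10
    rwa [star_mul, hw1.2.2, hpr.2.2, star_zero] at this
  have hww : w * ew = w := pi_mul hw1.2.1 hew.symm
  have h11 : star v * w = 0 := by
    have h12 : v * star v * f = v * star v := left_of_right hf₁.2.2 hf.2.2 hff
    have h13 : (v * star v) * w = 0 := by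
      rw [← hw3, ← mul_assoc, mul_sub, hf₁.2.1, h12, sub_self, zero_mul]
    have h14 : star v * (v * star v) = star v := by
      have h15 := congrArg star hve
      rw [star_mul, hpr.2.2, he₁] at h15
      rw [← mul_assoc]; exact h15
    rw [← h14, mul_assoc, h13, mul_zero]
  have h11' : star w * v = 0 := by
    have := congrArg star h11
    rwa [star_mul, star_star, star_zero] at this
  have hsum : star (v + w) * (v + w) = e₁ + ew := by
    rw [star_add, add_mul, mul_add, mul_add, h11, h11', ← he₁, ← hew]; abel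
  have hsum2 : (e₁ + ew) * (e₁ + ew) = e₁ + ew := (pr_add hpr hw1 h10).2.1
  let L : H →ₗ[ℂ] (H × H) := ((e₁ + ew : H →L[ℂ] H) : H →ₗ[ℂ] H).prod ((v + w : H →L[ℂ] H) : H →ₗ[ℂ] H)
  have hL : ∀ ξ, L ξ = ((e₁ + ew) ξ, (v + w) ξ) := fun ξ => rfl
  have hmemM1 : e₁ + ew ∈ M := add_mem hpr.1 hw1.1
  have hmemM2 : v + w ∈ M := add_mem hv hw
  have hΓ₂ : LinearMap.range L ∈ S := by
    refine ⟨?_, ?_, ?_⟩
    · rintro z ⟨ξ, rfl⟩
      exact pi_norm hsum2 hsum ξ
    · rintro y hy z ⟨ξ, rfl⟩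
      refine ⟨y ξ, ?_⟩
      have e1 := comm_of_mem hmemM1 hy
      have e2 := comm_of_mem hmemM2 hy
      refine Prod.ext ?_ ?_
      · exact (congrArg (fun T : H →L[ℂ] H => T ξ) e1).symm
      · exact (congrArg (fun T : H →L[ℂ] H => T ξ) e2).symm
    · rintro z ⟨ξ, rfl⟩
      have e1 : e * (e₁ + ew) = e₁ + ew := by
        have h16 : e * ew = ew := by
          rw [← hw2, ← mul_assoc, mul_sub, he.2.1, hee]
        rw [mul_add, hee, h16]
      have e2 : f * (v + w) = v + w := by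
        have h17 : f * w = w := by
          rw [← hw3, ← mul_assoc, mul_sub, hf.2.1, hff]
        rw [mul_add, hfv, h17]
      exact ⟨congrArg (fun T : H →L[ℂ] H => T ξ) e1, congrArg (fun T : H →L[ℂ] H => T ξ) e2⟩
  have hle : Γ ≤ LinearMap.range L := by
    intro z hz
    have e1 : e₁ z.1 = z.1 := by rw [he₁, mulA, h1 z hz, h2 z hz]
    have e2 : ew z.1 = 0 := by
      rw [← e1, ← mulA, h10']; simp
    have e3 : w z.1 = 0 := by
      rw [← hww, mulA, e2, map_zero]
    refine ⟨z.1, ?_⟩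
    rw [hL]
    refine Prod.ext ?_ ?_
    · change e₁ z.1 + ew z.1 = z.1
      rw [e1, e2, add_zero]
    · change v z.1 + w z.1 = z.2
      rw [h1 z hz, e3, add_zero]
  have hge := hmax hΓ₂ hle
  have hew0 : ew = 0 := by
    ext η
    have h18 : L (ew η) ∈ Γ := hge ⟨ew η, rfl⟩
    rw [hL] at h18
    have h19 := h2 _ h18
    rw [← h1 _ h18] at h19
    have h20 : e₁ ((e₁ + ew) (ew η)) = (e₁ + ew) (ew η) := h19
    have h21 : (e₁ + ew) * ew = ew := by rw [add_mul, h10, hw1.2.1, zero_add]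
    rw [← mulA (e₁ + ew) ew, h21, ← mulA, h10] at h20
    rw [← h20]
  exact hw0 (star_self_zero hew0)

end Pool.Agent.Helper757.SB.VNc
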