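import Mathlib
import Pool.Agent.Helper757.SB.VNc

set_option autoImplicit false

open ContinuousLinearMap

namespace Pool.Agent.Helper757.SB.VNd

open Pool.Agent.Helper757.SB.VNa Pool.Agent.Helper757.SB.VNb Pool.Agent.Helper757.SB.VNc

variable {H : Type*} [NormedAddCommGroup H] [InnerProductSpace ℂ H] [CompleteSpace H]

theorem pi_full {M : VonNeumannAlgebra H} (hfin : Fin' M) {e v : H →L[ℂ] H} (he : Pr M e)
    (hv : v ∈ M) (h : star v * v = e) (hev : e * v = v) : v * star v = e := by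
  have hve : v * e = v := pi_mul he.2.1 h
  have hse : star v * e = star v := by
    have := congrArg star hev
    rwa [star_mul, he.2.2] at this
  have hes : e * star v = star v := by
    have := congrArg star hve
    rwa [star_mul, he.2.2] at this
  have h1 : star (v + (1 - e)) * (v + (1 - e)) = 1 := by
    rw [star_add, star_sub, star_one, he.2.2, add_mul, mul_add, mul_add, h, mul_sub, mul_one, hse,
      sub_mul, one_mul, hev, mul_sub, mul_one, sub_mul, one_mul, he.2.1]
    abel
  have h2 := hfin _ (add_mem hv (sub_mem (one_mem M) he.1)) h1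
  rw [star_add, star_sub, star_one, he.2.2, add_mul, mul_add, mul_add, mul_sub, mul_one, hve,
      sub_mul, one_mul, hes, mul_sub, mul_one, sub_mul, one_mul, he.2.1] at h2
  have h3 : v * star v + (1 - e) = 1 :=
    calc v * star v + (1 - e)
        = v * star v + (v - v) + (star v - star v + (1 - e - (e - e))) := by abel
      _ = 1 := h2
  have h4 := eq_sub_of_add_eq h3
  rw [h4]; abel

theorem no_inf {M : VonNeumannAlgebra H} (hfin : Fin' M) {e : H →L[ℂ] H}
    (he0 : e ≠ 0) (w : ℕ → H →L[ℂ] H) (hw : ∀ i, w i ∈ M)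
    (h : ∀ i j, star (w i) * w j = if i = j then e else 0) : False := by
  let L : ℕ → H →ₗ[ℂ] (H × H) := fun i => ((w i : H →L[ℂ] H) : H →ₗ[ℂ] H).prod
    ((w (i + 1) : H →L[ℂ] H) : H →ₗ[ℂ] H)
  have hL : ∀ i ξ, L i ξ = (w i ξ, w (i + 1) ξ) := fun i ξ => rfl
  let Γ : Submodule ℂ (H × H) := ⨆ i, LinearMap.range (L i)
  have hmem : ∀ i ξ, ((w i ξ, w (i + 1) ξ) : H × H) ∈ Γ := fun i ξ =>
    (le_iSup (fun i => LinearMap.range (L i)) i) ⟨ξ, rfl⟩
  have hinn : ∀ i j ξ η, inner ℂ (w i ξ) (w j η) = if i = j then inner ℂ ξ (e η) else 0 := by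
    intro i j ξ η
    have h1 : inner ℂ ξ ((star (w i) * w j) η) = inner ℂ (w i ξ) (w j η) := by
      rw [mulA, star_eq_adjoint, adjoint_inner_right]
    rw [← h1, h]
    split_ifs <;> simp
  have hiso : ∀ z ∈ Γ, ‖z.1‖ = ‖z.2‖ := by
    intro z hz
    obtain ⟨f, hf, hfz⟩ := (Submodule.mem_iSup_iff_exists_finsupp _ _).1 hz
    choose ξ hξ using hf
    have hz1 : z.1 = ∑ i ∈ f.support, w i (ξ i) := by
      rw [← hfz, Finsupp.sum, Prod.fst_sum]
      exact Finset.sum_congr rfl fun i _ => by rw [← hξ i, hL]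
    have hz2 : z.2 = ∑ i ∈ f.support, w (i + 1) (ξ i) := by
      rw [← hfz, Finsupp.sum, Prod.snd_sum]
      exact Finset.sum_congr rfl fun i _ => by rw [← hξ i, hL]
    have h1 : inner ℂ z.1 z.1 = inner ℂ z.2 z.2 := by
      rw [hz1, hz2, sum_inner, sum_inner]
      refine Finset.sum_congr rfl fun i _ => ?_
      rw [inner_sum, inner_sum]
      refine Finset.sum_congr rfl fun j _ => ?_
      rw [hinn, hinn]
      simp
    rw [inner_self_eq_norm_sq_to_K, inner_self_eq_norm_sq_to_K] at h1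
    have h4 : ‖z.1‖ ^ 2 = ‖z.2‖ ^ 2 := by exact_mod_cast h1
    nlinarith [norm_nonneg z.1, norm_nonneg z.2]
  have hinv : ∀ y ∈ M.commutant, ∀ z ∈ Γ, ((y z.1, y z.2) : H × H) ∈ Γ := by
    intro y hy z hz
    let Y : (H × H) →ₗ[ℂ] (H × H) := LinearMap.prodMap (y : H →ₗ[ℂ] H) (y : H →ₗ[ℂ] H)
    have h1 : Γ ≤ Γ.comap Y := by
      refine iSup_le fun i => ?_
      rintro _ ⟨ξ, rfl⟩
      rw [Submodule.mem_comap]
      have e1 := comm_of_mem (hw i) hy
      have e2 := comm_of_mem (hw (i + 1)) hy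
      have h2 : Y (L i ξ) = (w i (y ξ), w (i + 1) (y ξ)) := by
        refine Prod.ext ?_ ?_
        · exact congrArg (fun T : H →L[ℂ] H => T ξ) e1
        · exact congrArg (fun T : H →L[ℂ] H => T ξ) e2
      rw [h2]
      exact hmem i _
    exact h1 hz
  obtain ⟨v, hv, h1, h2, h3, h4, h5, h6⟩ := exists_pisom M Γ hiso hinv
  have hpr : Pr M (star v * v) := ⟨mul_mem (star_mem hv) hv, h3.isIdempotentElem, h3.isSelfAdjoint⟩
  have hQ : ∀ i, (star v * v) * w i = w i := by
    intro i; ext ξ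
    rw [mulA, mulA, h1 _ (hmem i ξ)]
    exact h2 _ (hmem i ξ)
  have hQv : (star v * v) * v = v := by
    have h7 : (1 - star v * v) * v = 0 := by
      apply h6
      intro z hz
      have h8 : Γ ≤ LinearMap.ker (((1 - star v * v : H →L[ℂ] H) : H →ₗ[ℂ] H).comp
          (LinearMap.snd ℂ H H)) := by
        refine iSup_le fun i => ?_
        rintro _ ⟨ξ, rfl⟩
        rw [LinearMap.mem_ker]
        change w (i + 1) ξ - (star v * v) (w (i + 1) ξ) = 0
        rw [← mulA, hQ, sub_self]
      exact h8 hz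
    rw [sub_mul, one_mul, sub_eq_zero] at h7
    exact h7.symm
  have h0v : star (w 0) * v = 0 := by
    apply h6
    intro z hz
    have h8 : Γ ≤ LinearMap.ker (((star (w 0) : H →L[ℂ] H) : H →ₗ[ℂ] H).comp
        (LinearMap.snd ℂ H H)) := by
      refine iSup_le fun i => ?_
      rintro _ ⟨ξ, rfl⟩
      rw [LinearMap.mem_ker]
      change (star (w 0)) (w (i + 1) ξ) = 0
      rw [← mulA, h]; simp
    exact h8 hz
  have hfull := pi_full hfin hpr hv rfl hQv
  have h9 : star (w 0) * (star v * v) = 0 := by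
    rw [← hfull, ← mul_assoc, h0v, zero_mul]
  have h10 : star (w 0) * (star v * v) = star (w 0) := by
    have := congrArg star (hQ 0)
    rwa [star_mul, hpr.2.2] at this
  have h11 : e = 0 := by
    have h12 := h 0 0
    rw [if_pos rfl, ← h10, h9, zero_mul] at h12
    exact h12.symm
  exact he0 h11

/-- q is the sum of n orthogonal copies of e and of r. -/
inductive Dec (M : VonNeumannAlgebra H) (e : H →L[ℂ] H) : ℕ → (H →L[ℂ] H) → (H →L[ℂ] H) → Prop
  | nil (q : H →L[ℂ] H) : Dec M e 0 q q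
  | cons {n : ℕ} {q r : H →L[ℂ] H} (w : H →L[ℂ] H) (hw : w ∈ M) (h1 : star w * w = e)
      (h2 : q * w = w) (h3 : Dec M e n (q - w * star w) r) : Dec M e (n + 1) q r

theorem Dec.snoc {M : VonNeumannAlgebra H} {e : H →L[ℂ] H} {n : ℕ} {q r : H →L[ℂ] H}
    (h : Dec M e n q r) {w : H →L[ℂ] H} (hw : w ∈ M) (h1 : star w * w = e)
    (h2 : r * w = w) : Dec M e (n + 1) q (r - w * star w) := by
  induction h with
  | nil q => exact Dec.cons w hw h1 h2 (Dec.nil _)
  | cons w' hw' h1' h2' _ ih => exact Dec.cons w' hw' h1' h2' (ih h2)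

theorem pr_sub_pi {M : VonNeumannAlgebra H} {e q w : H →L[ℂ] H} (he : e * e = e) (hq : Pr M q)
    (hw : w ∈ M) (h1 : star w * w = e) (h2 : q * w = w) : Pr M (q - w * star w) :=
  pr_sub (pi_pr hw he h1) hq (by rw [← mul_assoc, h2])

theorem Dec.pr {M : VonNeumannAlgebra H} {e : H →L[ℂ] H} (he : e * e = e) {n : ℕ}
    {q r : H →L[ℂ] H} (h : Dec M e n q r) (hq : Pr M q) : Pr M r ∧ q * r = r := by
  induction h with
  | nil q => exact ⟨hq, hq.2.1⟩
  | @cons n q r w hw h1 h2 _ ih =>
    have h3 := ih (pr_sub_pi he hq hw h1 h2)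
    refine ⟨h3.1, ?_⟩
    have h4 : q * (q - w * star w) = q - w * star w := by
      rw [mul_sub, hq.2.1, ← mul_assoc, h2]
    rw [← h3.2, ← mul_assoc, h4]

theorem dec_exists {M : VonNeumannAlgebra H} (hM : Fac M) (hfin : Fin' M) {e q : H →L[ℂ] H}
    (he : Pr M e) (he0 : e ≠ 0) (hq : Pr M q) :
    ∃ n r, Dec M e n q r ∧ ¬ Sub M e r ∧ Sub M r e := by
  by_contra hcon
  have hS : ∀ n r, Dec M e n q r → Sub M e r := by
    intro n r hd
    by_contra hn
    have hr := (hd.pr he.2.1 hq).1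
    rcases compare hM he hr with h | h
    · exact hn h
    · exact hcon ⟨n, r, hd, hn, h⟩
  classical
  let g : (H →L[ℂ] H) → (H →L[ℂ] H) := fun r => if h : Sub M e r then h.choose else 0
  have hg : ∀ r, Sub M e r → g r ∈ M ∧ star (g r) * g r = e ∧ r * g r = g r := by
    intro r hr
    simp only [g, dif_pos hr]
    exact ⟨hr.choose_spec.1, hr.choose_spec.2.1, hr.choose_spec.2.2⟩
  let R : ℕ → (H →L[ℂ] H) := fun n => Nat.rec q (fun _ r => r - g r * star (g r)) n
  have hR0 : R 0 = q := rfl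
  have hRs : ∀ n, R (n + 1) = R n - g (R n) * star (g (R n)) := fun n => rfl
  have hD : ∀ n, Dec M e n q (R n) := by
    intro n
    induction n with
    | zero => exact Dec.nil q
    | succ n ih =>
      obtain ⟨h1, h2, h3⟩ := hg _ (hS n _ ih)
      rw [hRs]
      exact ih.snoc h1 h2 h3
  have hP : ∀ n, Pr M (R n) := fun n => ((hD n).pr he.2.1 hq).1
  have hw : ∀ n, g (R n) ∈ M ∧ star (g (R n)) * g (R n) = e ∧ R n * g (R n) = g (R n) :=
    fun n => hg _ (hS n _ (hD n))
  have hmono : ∀ m k, R m * R (m + k) = R (m + k) := by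
    intro m k
    induction k with
    | zero => exact (hP m).2.1
    | succ k ih =>
      rw [← add_assoc, hRs, mul_sub, ih, ← mul_assoc]
      congr 1
      have : R m * g (R (m + k)) = g (R (m + k)) := by
        conv_lhs => rw [← (hw (m + k)).2.2, ← mul_assoc, ih]
        exact (hw (m + k)).2.2
      rw [this]
  have horth : ∀ m n, m < n → star (g (R m)) * g (R n) = 0 := by
    intro m n hmn
    obtain ⟨k, rfl⟩ := Nat.exists_eq_add_of_lt hmn
    have h1 : R (m + 1) * g (R (m + k + 1)) = g (R (m + k + 1)) := by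
      conv_lhs => rw [← (hw (m + k + 1)).2.2, ← mul_assoc]
      have h2 := hmono (m + 1) k
      rw [show m + 1 + k = m + k + 1 by ring] at h2
      rw [h2]
      exact (hw (m + k + 1)).2.2
    have h3 : star (g (R m)) * R (m + 1) = 0 := by
      rw [hRs, mul_sub]
      have h4 : star (g (R m)) * R m = star (g (R m)) := by
        have := congrArg star (hw m).2.2
        rwa [star_mul, (hP m).2.2] at this
      have h5 : e * star (g (R m)) = star (g (R m)) := by
        have := congrArg star (pi_mul he.2.1 (hw m).2.1)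
        rwa [star_mul, he.2.2] at this
      rw [h4, ← mul_assoc, (hw m).2.1, h5, sub_self]
    rw [← h1, ← mul_assoc, h3, zero_mul]
  refine no_inf hfin he0 (fun n => g (R n)) (fun n => (hw n).1) (fun i j => ?_)
  rcases lt_trichotomy i j with hij | hij | hij
  · rw [if_neg hij.ne]; exact horth i j hij
  · subst hij; rw [if_pos rfl]; exact (hw i).2.1
  · rw [if_neg hij.ne']
    have := congrArg star (horth j i hij)
    rwa [star_mul, star_star, star_zero] at this

end Pool.Agent.Helper757.SB.VNd
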