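import Mathlib
import Pool.Agent.Helper757.SB.VNd

set_option autoImplicit false

open ContinuousLinearMap

namespace Pool.Agent.Helper757.SB.VNe

open Pool.Agent.Helper757.SB.VNa Pool.Agent.Helper757.SB.VNb Pool.Agent.Helper757.SB.VNc
open Pool.Agent.Helper757.SB.VNd

variable {H : Type*} [NormedAddCommGroup H] [InnerProductSpace ℂ H] [CompleteSpace H]

theorem rsmul_eq (c : ℝ) (x : H →L[ℂ] H) : c • x = (c : ℂ) • x := by
  ext ξ; simp

theorem rsmul_mem {M : VonNeumannAlgebra H} (c : ℝ) {x : H →L[ℂ] H} (hx : x ∈ M) : c • x ∈ M := by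
  rw [rsmul_eq]; exact smul_mem' _ hx

theorem dyadic (M : VonNeumannAlgebra H) {a : H →L[ℂ] H} (ha : a ∈ M) (h0 : 0 ≤ a) {d : ℝ}
    (h1 : 0 ≤ d • (1 : H →L[ℂ] H) - a) :
    ∃ p, Pr M p ∧ (∀ y, star y = y → Commute a y → Commute p y) ∧ 0 ≤ a - (d / 2) • p ∧
      0 ≤ (d / 2) • (1 : H →L[ℂ] H) - (a - (d / 2) • p) := by
  obtain ⟨c, hc⟩ : ∃ c : H →L[ℂ] H, c = a - (d / 2) • 1 := ⟨_, rfl⟩
  have hasa : IsSelfAdjoint a := IsSelfAdjoint.of_nonneg h0
  have hcsa : IsSelfAdjoint c := by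
    rw [hc]
    refine hasa.sub ?_
    rw [isSelfAdjoint_iff, star_smul, star_one, star_trivial]
  have hcM : c ∈ M := by rw [hc]; exact sub_mem ha (rsmul_mem _ (one_mem M))
  have hcpM : c⁺ ∈ M := by
    refine mem_of_commute hcM fun y h1 _ => ?_
    rw [CFC.posPart_def]
    exact h1.cfcₙ_real _
  have hpn := CFC.posPart_mul_negPart c
  have hnp := CFC.negPart_mul_posPart c
  have hsub := CFC.posPart_sub_negPart c hcsa
  have hp0 := CFC.posPart_nonneg c
  have hn0 := CFC.negPart_nonneg c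
  obtain ⟨p, hp, hp1, hp2⟩ := exists_proj M (LinearMap.range ((c⁺ : H →L[ℂ] H) : H →ₗ[ℂ] H))
    (by
      rintro y hy _ ⟨ξ, rfl⟩
      refine ⟨y ξ, ?_⟩
      exact (congrArg (fun T : H →L[ℂ] H => T ξ) (comm_of_mem hcpM hy)).symm)
  have hpc : p * c⁺ = c⁺ := by
    ext ξ; rw [mulA]; exact hp1 _ ⟨ξ, rfl⟩
  have hcp : c⁺ * p = c⁺ := by
    have := congrArg star hpc
    rwa [star_mul, hp.2.2, (IsSelfAdjoint.of_nonneg hp0).star_eq] at this
  have hnp' : c⁻ * p = 0 := by
    apply hp2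
    rintro _ ⟨ξ, rfl⟩
    change c⁻ (c⁺ ξ) = 0
    rw [← mulA, hnp]; simp
  have hpn' : p * c⁻ = 0 := by
    have := congrArg star hnp'
    rwa [star_mul, hp.2.2, (IsSelfAdjoint.of_nonneg hn0).star_eq, star_zero] at this
  have hcomm : ∀ y, star y = y → Commute a y → Commute p y := by
    intro y hy hay
    have hcy : Commute c y := by
      rw [hc]
      exact hay.sub_left ((Commute.one_left y).smul_left _)
    have hcpy : Commute c⁺ y := by
      rw [CFC.posPart_def]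
      exact hcy.cfcₙ_real _
    have h2 : ((1 - p) * y) * p = 0 := by
      apply hp2
      rintro _ ⟨ξ, rfl⟩
      have h3 : ((1 - p) * y) * c⁺ = 0 := by
        rw [mul_assoc, ← hcpy.eq, ← mul_assoc, sub_mul, one_mul, hpc, sub_self, zero_mul]
      exact congrArg (fun T : H →L[ℂ] H => T ξ) h3
    rw [sub_mul, one_mul, sub_mul, sub_eq_zero] at h2
    have h4 := congrArg star h2
    rw [star_mul, star_mul, star_mul, hp.2.2, hy, ← mul_assoc] at h4
    change p * y = y * p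
    rw [h4, ← h2]
  have e1 : a = c + (d / 2) • 1 := by rw [hc]; abel
  have hq : star (1 - p) = 1 - p := by rw [star_sub, star_one, hp.2.2]
  refine ⟨p, hp, hcomm, ?_, ?_⟩
  · have e2 : a - (d / 2) • p = c⁺ + star (1 - p) * a * (1 - p) := by
      have e5 : a = c⁺ - c⁻ + (d / 2) • 1 := by rw [hsub]; exact e1
      have e6 : (1 - p) * a * (1 - p) = - c⁻ + (d / 2) • (1 - p) := by
        rw [e5]
        simp only [sub_mul, mul_sub, add_mul, mul_add, one_mul, mul_one, hpc, hcp, hnp', hpn',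
          smul_mul_assoc, mul_smul_comm, hp.2.1, zero_mul, smul_zero, smul_sub]
        abel
      rw [hq, e6, smul_sub]
      generalize (d / 2) • (1 : H →L[ℂ] H) = D at *
      generalize (d / 2) • p = P at *
      rw [e5]; abel
    rw [e2]
    exact add_nonneg hp0 (star_left_conjugate_nonneg h0 _)
  · have e3 : (d / 2) • (1 : H →L[ℂ] H) - (a - (d / 2) • p) =
        star p * (d • (1 : H →L[ℂ] H) - a) * p + c⁻ := by
      have e4 : d • (1 : H →L[ℂ] H) - a = (d / 2) • 1 - c := by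
        rw [hc, sub_sub_eq_add_sub, ← add_smul, add_halves]
      have e5 : a = c⁺ - c⁻ + (d / 2) • 1 := by rw [hsub]; exact e1
      have e6 : p * ((d / 2) • (1 : H →L[ℂ] H) - c) * p = (d / 2) • p - c⁺ := by
        conv_lhs => rw [← hsub]
        simp only [sub_mul, mul_sub, mul_one, hpc, hcp, hpn',
          smul_mul_assoc, mul_smul_comm, hp.2.1, zero_mul]
        abel
      rw [hp.2.2, e4, e6]
      generalize (d / 2) • (1 : H →L[ℂ] H) = D at *
      generalize (d / 2) • p = P at *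
      rw [e5]; abel
    rw [e3]
    exact add_nonneg (star_left_conjugate_nonneg h1 _) hn0

theorem proj_le_of_le {q p a : H →L[ℂ] H} (hq : star q = q) (hp1 : p * p = p) (hp : star p = p)
    (hqa : q * a = a) {c : ℝ} (hc : 0 < c) (h : 0 ≤ a - c • p) : q * p = p := by
  have hs : star (1 - q) = 1 - q := by rw [star_sub, star_one, hq]
  have h1 := star_left_conjugate_nonneg h (1 - q)
  have h2 : star (1 - q) * (a - c • p) * (1 - q) = - (c • (star (p * (1 - q)) * (p * (1 - q)))) := by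
    have e1 : (1 - q) * a = 0 := by rw [sub_mul, one_mul, hqa, sub_self]
    have e2 : (1 - q) * (a - c • p) = - (c • ((1 - q) * p)) := by
      rw [mul_sub (1 - q) a, e1, zero_sub, mul_smul_comm]
    rw [star_mul, hs, hp, e2, neg_mul, smul_mul_assoc]
    congr 2
    rw [mul_assoc (1 - q) p (p * (1 - q)), ← mul_assoc p p, hp1, mul_assoc]
  rw [h2] at h1
  have h3 : 0 ≤ c • (star (p * (1 - q)) * (p * (1 - q))) :=
    smul_nonneg hc.le (star_mul_self_nonneg _)
  have h4 : c • (star (p * (1 - q)) * (p * (1 - q))) = 0 :=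
    le_antisymm (neg_nonneg.1 h1) h3
  have h5 : star (p * (1 - q)) * (p * (1 - q)) = 0 := by
    rcases smul_eq_zero.1 h4 with h | h
    · exact absurd h hc.ne'
    · exact h
  have h6 := star_self_zero h5
  rw [mul_sub, mul_one, sub_eq_zero] at h6
  have h7 := congrArg star h6
  rw [star_mul, hp, hq] at h7
  exact h7.symm

/-- dyadic expansion of a positive contraction of M into commuting projections -/
theorem dyadic_seq (M : VonNeumannAlgebra H) {a : H →L[ℂ] H} (ha : a ∈ M) (h0 : 0 ≤ a)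
    (h1 : 0 ≤ (1 : H →L[ℂ] H) - a) :
    ∃ p : ℕ → H →L[ℂ] H, (∀ i, Pr M (p i)) ∧ (∀ i j, Commute (p i) (p j)) ∧
      (∀ q, star q = q → q * a = a → ∀ i, q * p i = p i) ∧
      ∀ n, ‖a - ∑ i ∈ Finset.range n, ((1 : ℝ) / 2 ^ (i + 1)) • p i‖ ≤ 1 / 2 ^ n := by
  classical
  have hstep : ∀ (x : H →L[ℂ] H) (n : ℕ), ∃ p, (x ∈ M ∧ 0 ≤ x ∧
      0 ≤ ((1 : ℝ) / 2 ^ n) • (1 : H →L[ℂ] H) - x) → Pr M p ∧
      (∀ y, star y = y → Commute x y → Commute p y) ∧ 0 ≤ x - ((1 : ℝ) / 2 ^ (n + 1)) • p ∧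
      0 ≤ ((1 : ℝ) / 2 ^ (n + 1)) • (1 : H →L[ℂ] H) - (x - ((1 : ℝ) / 2 ^ (n + 1)) • p) := by
    intro x n
    by_cases h : x ∈ M ∧ 0 ≤ x ∧ 0 ≤ ((1 : ℝ) / 2 ^ n) • (1 : H →L[ℂ] H) - x
    · obtain ⟨p, hp⟩ := dyadic M h.1 h.2.1 h.2.2
      refine ⟨p, fun _ => ?_⟩
      have e : (1 : ℝ) / 2 ^ n / 2 = 1 / 2 ^ (n + 1) := by rw [pow_succ]; field_simp
      rw [e] at hp
      exact hp
    · exact ⟨0, fun h' => absurd h' h⟩
  choose g hg using hstep
  let A : ℕ → (H →L[ℂ] H) := fun n =>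
    Nat.rec a (fun k r => r - ((1 : ℝ) / 2 ^ (k + 1)) • g r k) n
  have hA0 : A 0 = a := rfl
  have hAs : ∀ n, A (n + 1) = A n - ((1 : ℝ) / 2 ^ (n + 1)) • g (A n) n := fun n => rfl
  have hA : ∀ n, A n ∈ M ∧ 0 ≤ A n ∧ 0 ≤ ((1 : ℝ) / 2 ^ n) • (1 : H →L[ℂ] H) - A n := by
    intro n
    induction n with
    | zero => exact ⟨ha, h0, by simpa [hA0] using h1⟩
    | succ n ih =>
      obtain ⟨k1, k2, k3, k4⟩ := hg (A n) n ih
      rw [hAs]
      exact ⟨sub_mem ih.1 (rsmul_mem _ k1.1), k3, k4⟩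
  have hP : ∀ n, Pr M (g (A n) n) := fun n => (hg _ _ (hA n)).1
  have hAsa : ∀ n, star (A n) = A n := fun n => (IsSelfAdjoint.of_nonneg (hA n).2.1).star_eq
  have hcA : ∀ m k, Commute (A (m + 1 + k)) (g (A m) m) := by
    intro m k
    induction k with
    | zero =>
      rw [add_zero, hAs]
      have h2 : Commute (g (A m) m) (A m) :=
        (hg _ _ (hA m)).2.1 _ (hAsa m) (Commute.refl _)
      exact h2.symm.sub_left ((Commute.refl _).smul_left _)
    | succ k ih =>
      rw [← add_assoc, hAs]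
      have h2 : Commute (g (A (m + 1 + k)) (m + 1 + k)) (g (A m) m) :=
        (hg _ _ (hA (m + 1 + k))).2.1 _ (hP m).2.2 ih
      exact ih.sub_left (h2.smul_left _)
  have hcomm : ∀ m n, m < n → Commute (g (A n) n) (g (A m) m) := by
    intro m n hmn
    obtain ⟨k, rfl⟩ := Nat.exists_eq_add_of_lt hmn
    have h2 := hcA m k
    rw [show m + 1 + k = m + k + 1 by ring] at h2
    exact (hg _ _ (hA (m + k + 1))).2.1 _ (hP m).2.2 h2
  have hsum : ∀ n, a - ∑ i ∈ Finset.range n, ((1 : ℝ) / 2 ^ (i + 1)) • g (A i) i = A n := by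
    intro n
    induction n with
    | zero => simp [hA0]
    | succ n ih => rw [Finset.sum_range_succ, ← sub_sub, ih, hAs]
  refine ⟨fun n => g (A n) n, hP, ?_, ?_, ?_⟩
  · intro i j
    rcases lt_trichotomy i j with h | h | h
    · exact (hcomm i j h).symm
    · rw [h]
    · exact hcomm j i h
  · intro q hq hqa i
    have hqA : ∀ n, q * A n = A n := by
      intro n
      induction n with
      | zero => exact hqa
      | succ n ih =>
        have h2 := proj_le_of_le hq (hP n).2.1 (hP n).2.2 ih (by positivity)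
          (hg _ _ (hA n)).2.2.1
        rw [hAs, mul_sub, ih, mul_smul_comm, h2]
    exact proj_le_of_le hq (hP i).2.1 (hP i).2.2 (hqA i) (by positivity) (hg _ _ (hA i)).2.2.1
  · intro n
    rw [hsum]
    rw [CStarAlgebra.norm_le_iff_le_algebraMap (A n) (by positivity) (hA n).2.1,
      Algebra.algebraMap_eq_smul_one]
    exact sub_nonneg.1 (hA n).2.2

end Pool.Agent.Helper757.SB.VNe
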