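import Mathlib
import Pool.Agent.Helper757.SB.VNe

open Pool.Agent.Helper757.SB.VNb Pool.Agent.Helper757.SB.VNc Pool.Agent.Helper757.SB.VNd Pool.Agent.Helper757.SB.VNe

namespace Pool.Agent.Helper757.SB

variable {H : Type*} [NormedAddCommGroup H] [InnerProductSpace ℂ H] [CompleteSpace H]

section aux

theorem sb_swap {M : VonNeumannAlgebra H} {e v : H →L[ℂ] H} (he : Pr M e) (hv : v ∈ M)
    (h1 : star v * v = e) (h2 : (1 - e) * v = v) :
    ∃ u ∈ M, star u = u ∧ u * u = 1 ∧ ∃ f, u * e * u = f ∧ 0 ≤ 1 - e - f := by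
  obtain ⟨he1, he2, he3⟩ := he
  have hev : e * v = 0 := by
    rw [sub_mul, one_mul] at h2
    exact sub_eq_self.1 h2
  have hve : v * e = v := pi_mul he2 h1
  have hse : star v * e = 0 := by
    have := congrArg star hev
    rwa [star_mul, he3, star_zero] at this
  have hes : e * star v = star v := by
    have := congrArg star hve
    rwa [star_mul, he3] at this
  have hvv : v * v = 0 := by
    calc v * v = (v * e) * v := by rw [hve]
      _ = v * (e * v) := mul_assoc _ _ _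
      _ = 0 := by rw [hev, mul_zero]
  have hss : star v * star v = 0 := by
    have := congrArg star hvv
    rwa [star_mul, star_zero] at this
  obtain ⟨f, hf⟩ : ∃ f, f = v * star v := ⟨_, rfl⟩
  have hff : f * f = f := by rw [hf]; exact (pi_final he2 h1).1
  have hsf : star f = f := by rw [hf]; exact (pi_final he2 h1).2
  have hfM : f ∈ M := by rw [hf]; exact mul_mem hv (star_mem hv)
  have hvf : v * f = 0 := by rw [hf, ← mul_assoc, hvv, zero_mul]
  have hfv : f * v = v := by rw [hf, mul_assoc, h1, hve]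
  have hsvf : star v * f = star v := by rw [hf, ← mul_assoc, h1, hes]
  have hfs : f * star v = 0 := by rw [hf, mul_assoc, hss, mul_zero]
  have hef : e * f = 0 := by rw [hf, ← mul_assoc, hev, zero_mul]
  have hfe : f * e = 0 := by rw [hf, mul_assoc, hse, mul_zero]
  have hsr : star (1 - e - f) = 1 - e - f := by rw [star_sub, star_sub, star_one, he3, hsf]
  refine ⟨v + star v + (1 - e - f), add_mem (add_mem hv (star_mem hv))
    (sub_mem (sub_mem (one_mem M) he1) hfM), ?_, ?_, f, ?_, ?_⟩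
  · rw [star_add, star_add, star_star, hsr]
    abel
  · simp only [mul_add, add_mul, mul_sub, sub_mul, one_mul, mul_one, hvv, hss, hvf, hfv, hsvf,
      hfs, hef, hfe, hff, he2, hve, hev, hse, hes, h1, ← hf]
    abel
  · have h3 : (v + star v + (1 - e - f)) * e = v := by
      simp only [add_mul, sub_mul, one_mul, hve, hse, he2, hfe]
      abel
    rw [h3]
    simp only [mul_add, mul_sub, mul_one, hvv, hve, hvf, ← hf]
    abel
  · have h3 : (1 : H →L[ℂ] H) - e - f = star (1 - e - f) * (1 - e - f) := by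
      rw [hsr]
      simp only [mul_sub, sub_mul, one_mul, mul_one, hef, hfe, hff, he2]
      abel
    rw [h3]
    exact star_mul_self_nonneg _

/-- span of the commutators -/
def SC (M : VonNeumannAlgebra H) : Submodule ℂ (H →L[ℂ] H) :=
  Submodule.span ℂ {z : H →L[ℂ] H | ∃ x ∈ M, ∃ y ∈ M, z = x * y - y * x}

theorem sb_comm {M : VonNeumannAlgebra H} {a u : H →L[ℂ] H} (ha : a ∈ M) (hu : u ∈ M)
    (huu : u * u = 1) : a - ((1 : ℝ) / 2) • (a + u * a * u) ∈ SC M := by
  have h1 : (u * a) * u - u * (u * a) ∈ SC M :=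
    Submodule.subset_span ⟨u * a, mul_mem hu ha, u, hu, rfl⟩
  have h2 : a - ((1 : ℝ) / 2) • (a + u * a * u) =
      (((-1 / 2 : ℝ) : ℂ)) • ((u * a) * u - u * (u * a)) := by
    rw [← rsmul_eq, ← mul_assoc u u a, huu, one_mul]
    module
  rw [h2]
  exact Submodule.smul_mem _ _ h1

theorem sb_step {M : VonNeumannAlgebra H} (hM : Fac M) {a : H →L[ℂ] H} (ha : a ∈ M)
    (h0 : 0 ≤ a) {d : ℝ} (hd : 0 ≤ d) (h1 : 0 ≤ d • (1 : H →L[ℂ] H) - a) :
    ∃ b ∈ M, 0 ≤ b ∧ 0 ≤ ((3 / 4) * d) • (1 : H →L[ℂ] H) - b ∧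
      ∃ c : ℝ, a - b - c • (1 : H →L[ℂ] H) ∈ SC M := by
  obtain ⟨p, hp, -, hp1, hp2⟩ := dyadic M ha h0 h1
  have hq : Pr M (1 - p) := pr_sub hp (pr_one M) (one_mul p)
  rcases compare hM hp hq with ⟨v, hv, hv1, hv2⟩ | ⟨v, hv, hv1, hv2⟩
  · obtain ⟨u, hu, hsu, huu, f, huf, hf0⟩ := sb_swap hp hv hv1 hv2
    refine ⟨((1 : ℝ) / 2) • (a + u * a * u),
      rsmul_mem _ (add_mem ha (mul_mem (mul_mem hu ha) hu)), ?_, ?_, 0, ?_⟩
    · have h3 := star_left_conjugate_nonneg h0 u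
      rw [hsu] at h3
      exact smul_nonneg (by norm_num) (add_nonneg h0 h3)
    · obtain ⟨w, hw⟩ : ∃ w, w = (d / 2) • (1 : H →L[ℂ] H) - (a - (d / 2) • p) := ⟨_, rfl⟩
      have haw : a = (d / 2) • (1 : H →L[ℂ] H) + (d / 2) • p - w := by rw [hw]; abel
      have hw0 : 0 ≤ w := by rw [hw]; exact hp2
      have h3 := star_left_conjugate_nonneg hw0 u
      rw [hsu] at h3
      have h4 : u * a * u = (d / 2) • (1 : H →L[ℂ] H) + (d / 2) • f - u * w * u := by
        rw [haw, mul_sub, mul_add, sub_mul, add_mul, mul_smul_comm, mul_smul_comm, mul_one,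
          smul_mul_assoc, smul_mul_assoc, huu, huf]
      have h5 : ((3 / 4) * d) • (1 : H →L[ℂ] H) - ((1 : ℝ) / 2) • (a + u * a * u) =
          (d / 4) • (1 - p - f) + ((1 : ℝ) / 2) • (w + u * w * u) := by
        rw [h4]
        generalize u * w * u = W
        rw [haw]
        module
      rw [h5]
      exact add_nonneg (smul_nonneg (by positivity) hf0)
        (smul_nonneg (by norm_num) (add_nonneg hw0 h3))
    · rw [zero_smul, sub_zero]
      exact sb_comm ha hu huu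
  · obtain ⟨u, hu, hsu, huu, f, huf, hf0⟩ := sb_swap hq hv hv1 (by rw [sub_sub_cancel]; exact hv2)
    obtain ⟨w, hw⟩ : ∃ w, w = a - (d / 2) • p := ⟨_, rfl⟩
    have haw : a = (d / 2) • p + w := by rw [hw]; abel
    have hw0 : 0 ≤ w := by rw [hw]; exact hp1
    have h3 := star_left_conjugate_nonneg hw0 u
    rw [hsu] at h3
    have hup : u * p * u = 1 - f := by
      rw [← huf, mul_sub, sub_mul, mul_one, huu]
      abel
    have h4 : u * a * u = (d / 2) • (1 - f) + u * w * u := by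
      rw [haw, mul_add, add_mul, mul_smul_comm, smul_mul_assoc, hup]
    refine ⟨((1 : ℝ) / 2) • (a + u * a * u) - (d / 4) • (1 : H →L[ℂ] H),
      sub_mem (rsmul_mem _ (add_mem ha (mul_mem (mul_mem hu ha) hu))) (rsmul_mem _ (one_mem M)),
      ?_, ?_, d / 4, ?_⟩
    · have h5 : ((1 : ℝ) / 2) • (a + u * a * u) - (d / 4) • (1 : H →L[ℂ] H) =
          (d / 4) • (1 - (1 - p) - f) + ((1 : ℝ) / 2) • (w + u * w * u) := by
        rw [h4]
        generalize u * w * u = W
        rw [haw]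
        module
      rw [h5]
      exact add_nonneg (smul_nonneg (by positivity) hf0)
        (smul_nonneg (by norm_num) (add_nonneg hw0 h3))
    · have h6 := star_left_conjugate_nonneg h1 u
      rw [hsu] at h6
      have h7 : u * (d • (1 : H →L[ℂ] H) - a) * u = d • (1 : H →L[ℂ] H) - u * a * u := by
        rw [mul_sub, sub_mul, mul_smul_comm, smul_mul_assoc, mul_one, huu]
      rw [h7] at h6
      have h5 : ((3 / 4) * d) • (1 : H →L[ℂ] H) -
          (((1 : ℝ) / 2) • (a + u * a * u) - (d / 4) • (1 : H →L[ℂ] H)) =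
          ((1 : ℝ) / 2) • ((d • (1 : H →L[ℂ] H) - a) + (d • (1 : H →L[ℂ] H) - u * a * u)) := by
        generalize u * a * u = W
        module
      rw [h5]
      exact smul_nonneg (by norm_num) (add_nonneg h1 h6)
    · have h5 : a - (((1 : ℝ) / 2) • (a + u * a * u) - (d / 4) • (1 : H →L[ℂ] H)) -
          (d / 4) • (1 : H →L[ℂ] H) = a - ((1 : ℝ) / 2) • (a + u * a * u) := by abel
      rw [h5]
      exact sb_comm ha hu huu

theorem sb_iter {M : VonNeumannAlgebra H} (hM : Fac M) {a : H →L[ℂ] H} (ha : a ∈ M)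
    (h0 : 0 ≤ a) {d : ℝ} (hd : 0 ≤ d) (h1 : 0 ≤ d • (1 : H →L[ℂ] H) - a) (n : ℕ) :
    ∃ b ∈ M, 0 ≤ b ∧ 0 ≤ ((3 / 4) ^ n * d) • (1 : H →L[ℂ] H) - b ∧
      ∃ c : ℝ, a - b - c • (1 : H →L[ℂ] H) ∈ SC M := by
  induction n with
  | zero => exact ⟨a, ha, h0, by simpa using h1, 0, by simp⟩
  | succ n ih =>
    obtain ⟨b, hb, hb0, hb1, c, hc⟩ := ih
    obtain ⟨b', hb', hb0', hb1', c', hc'⟩ := sb_step hM hb hb0 (by positivity) hb1
    refine ⟨b', hb', hb0', ?_, c + c', ?_⟩
    · have e : (3 / 4 : ℝ) ^ (n + 1) * d = (3 / 4) * ((3 / 4) ^ n * d) := by ring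
      rw [e]; exact hb1'
    · have e : a - b' - (c + c') • (1 : H →L[ℂ] H) =
          (a - b - c • (1 : H →L[ℂ] H)) + (b - b' - c' • (1 : H →L[ℂ] H)) := by
        rw [add_smul]; abel
      rw [e]
      exact add_mem hc hc'

/-- the property -/
def DX (M : VonNeumannAlgebra H) (a : H →L[ℂ] H) : Prop :=
  ∀ ε : ℝ, 0 < ε → ∃ c : ℂ, ∃ k ∈ SC M, ‖a - c • (1 : H →L[ℂ] H) - k‖ < ε

theorem DX_pos {M : VonNeumannAlgebra H} (hM : Fac M) {a : H →L[ℂ] H} (ha : a ∈ M)
    (h0 : 0 ≤ a) : DX M a := by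
  intro ε hε
  have h1 : 0 ≤ ‖a‖ • (1 : H →L[ℂ] H) - a := by
    have := (CStarAlgebra.norm_le_iff_le_algebraMap a (norm_nonneg a) h0).1 le_rfl
    rw [Algebra.algebraMap_eq_smul_one] at this
    exact sub_nonneg.2 this
  have hlim : Filter.Tendsto (fun n : ℕ => (3 / 4 : ℝ) ^ n * ‖a‖) Filter.atTop
      (nhds (0 * ‖a‖)) :=
    (tendsto_pow_atTop_nhds_zero_of_lt_one (by norm_num) (by norm_num)).mul_const _
  rw [zero_mul] at hlim
  obtain ⟨n, hn⟩ := (hlim.eventually (gt_mem_nhds hε)).exists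
  obtain ⟨b, hb, hb0, hb1, c, hc⟩ := sb_iter hM ha h0 (norm_nonneg a) h1 n
  refine ⟨(c : ℂ), _, hc, ?_⟩
  have h2 : a - (c : ℂ) • (1 : H →L[ℂ] H) - (a - b - c • (1 : H →L[ℂ] H)) = b := by
    rw [rsmul_eq]; abel
  rw [h2]
  refine lt_of_le_of_lt ?_ hn
  rw [CStarAlgebra.norm_le_iff_le_algebraMap b (by positivity) hb0,
    Algebra.algebraMap_eq_smul_one]
  exact sub_nonneg.1 hb1

theorem DX_add {M : VonNeumannAlgebra H} {a b : H →L[ℂ] H} (ha : DX M a) (hb : DX M b) :
    DX M (a + b) := by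
  intro ε hε
  obtain ⟨c, k, hk, h1⟩ := ha (ε / 2) (by positivity)
  obtain ⟨c', k', hk', h2⟩ := hb (ε / 2) (by positivity)
  refine ⟨c + c', k + k', add_mem hk hk', ?_⟩
  have e : a + b - (c + c') • (1 : H →L[ℂ] H) - (k + k') =
      (a - c • (1 : H →L[ℂ] H) - k) + (b - c' • (1 : H →L[ℂ] H) - k') := by
    rw [add_smul]; abel
  rw [e]
  exact (norm_add_le _ _).trans_lt (by linarith)

theorem DX_smul {M : VonNeumannAlgebra H} {a : H →L[ℂ] H} (ha : DX M a) (l : ℂ) :
    DX M (l • a) := by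
  intro ε hε
  obtain ⟨c, k, hk, h1⟩ := ha (ε / (‖l‖ + 1)) (by positivity)
  refine ⟨l * c, l • k, Submodule.smul_mem _ _ hk, ?_⟩
  have e : l • a - (l * c) • (1 : H →L[ℂ] H) - l • k = l • (a - c • (1 : H →L[ℂ] H) - k) := by
    rw [smul_sub, smul_sub, smul_smul]
  rw [e, norm_smul]
  rw [lt_div_iff₀ (by positivity)] at h1
  nlinarith [norm_nonneg (a - c • (1 : H →L[ℂ] H) - k), norm_nonneg l]

theorem DX_scalar {M : VonNeumannAlgebra H} (c : ℂ) : DX M (c • (1 : H →L[ℂ] H)) := by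
  intro ε hε
  exact ⟨c, 0, zero_mem _, by simpa using hε⟩

theorem DX_sa {M : VonNeumannAlgebra H} (hM : Fac M) {a : H →L[ℂ] H} (ha : a ∈ M)
    (hs : IsSelfAdjoint a) : DX M a := by
  have h1 : 0 ≤ a + ‖a‖ • (1 : H →L[ℂ] H) := by
    have := IsSelfAdjoint.neg_algebraMap_norm_le_self hs
    rw [Algebra.algebraMap_eq_smul_one] at this
    have h2 := sub_nonneg.2 this
    rwa [sub_neg_eq_add] at h2
  have h2 := DX_pos hM (add_mem ha (rsmul_mem _ (one_mem M))) h1
  have h3 : a = (a + ‖a‖ • (1 : H →L[ℂ] H)) + (-(‖a‖ : ℂ)) • (1 : H →L[ℂ] H) := by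
    rw [rsmul_eq, neg_smul]; abel
  rw [h3]
  exact DX_add h2 (DX_scalar _)

end aux

/-- Dixmier averaging: in a factor every element is a scalar modulo the norm closure of the span of
the commutators -/
theorem vn_dixmier {M : VonNeumannAlgebra H} (hM : Fac M) {a : H →L[ℂ] H} (ha : a ∈ M)
    {ε : ℝ} (hε : 0 < ε) :
    ∃ c : ℂ, ∃ k ∈ Submodule.span ℂ {z : H →L[ℂ] H | ∃ x ∈ M, ∃ y ∈ M, z = x * y - y * x},
      ‖a - c • (1 : H →L[ℂ] H) - k‖ < ε := by
  have h1 : DX M (a + star a) := DX_sa hM (add_mem ha (star_mem ha)) (IsSelfAdjoint.add_star_self a)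
  have h2 : DX M (Complex.I • (a - star a)) := by
    apply DX_sa hM (smul_mem' _ (sub_mem ha (star_mem ha)))
    rw [isSelfAdjoint_iff, star_smul, star_sub, star_star]
    simp only [Complex.star_def, Complex.conj_I, neg_smul, ← smul_neg, neg_sub]
  have h3 : a = (1 / 2 : ℂ) • (a + star a) + (-Complex.I / 2) • (Complex.I • (a - star a)) := by
    rw [smul_smul]
    have : -Complex.I / 2 * Complex.I = 1 / 2 := by
      linear_combination (-1 / 2 : ℂ) * Complex.I_mul_I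
    rw [this]
    module
  have h4 : DX M a := by
    rw [h3]
    exact DX_add (DX_smul h1 _) (DX_smul h2 _)
  exact h4 ε hε

end Pool.Agent.Helper757.SB
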