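import Mathlib
import Pool.Agent.Helper757.SB.VNd

open Pool.Agent.Helper757.SB.VNb Pool.Agent.Helper757.SB.VNc Pool.Agent.Helper757.SB.VNd

namespace Pool.Agent.Helper757.SB

variable {H : Type*} [NormedAddCommGroup H] [InnerProductSpace ℂ H] [CompleteSpace H]

inductive InI (M : VonNeumannAlgebra H) (k : H →L[ℂ] H) : (H →L[ℂ] H) → Prop
  | zero : InI M k 0
  | step {q x y : H →L[ℂ] H} (h : InI M k q) (hx : x ∈ M) (hy : y ∈ M) :
      InI M k (x * k * y + q)

theorem InI.add {M : VonNeumannAlgebra H} {k a b : H →L[ℂ] H} (ha : InI M k a)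
    (hb : InI M k b) : InI M k (a + b) := by
  induction ha with
  | zero => rwa [zero_add]
  | step _ hx hy ih => rw [add_assoc]; exact InI.step ih hx hy

theorem InI.mul {M : VonNeumannAlgebra H} {k a u v : H →L[ℂ] H} (ha : InI M k a)
    (hu : u ∈ M) (hv : v ∈ M) : InI M k (u * a * v) := by
  induction ha with
  | zero => rw [mul_zero, zero_mul]; exact InI.zero
  | @step q x y _ hx hy ih =>
    have : u * (x * k * y + q) * v = (u * x) * k * (y * v) + u * q * v := by
      noncomm_ring
    rw [this]; exact InI.step ih (mul_mem hu hx) (mul_mem hy hv)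

theorem InI.out {M : VonNeumannAlgebra H} {k a : H →L[ℂ] H} (ha : InI M k a) :
    ∃ (n : ℕ) (x y : Fin n → H →L[ℂ] H), (∀ i, x i ∈ M) ∧ (∀ i, y i ∈ M) ∧
      ∑ i, x i * k * y i = a := by
  induction ha with
  | zero => exact ⟨0, Fin.elim0, Fin.elim0, fun i => i.elim0, fun i => i.elim0, by simp⟩
  | @step q x y _ hx hy ih =>
    obtain ⟨n, x', y', h1, h2, h3⟩ := ih
    refine ⟨n + 1, Fin.cons x x', Fin.cons y y', ?_, ?_, ?_⟩
    · intro i; refine Fin.cases ?_ ?_ i
      · simpa using hx
      · intro j; simpa using h1 j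
    · intro i; refine Fin.cases ?_ ?_ i
      · simpa using hy
      · intro j; simpa using h2 j
    · rw [Fin.sum_univ_succ]; simp [h3]

theorem InI.dec {M : VonNeumannAlgebra H} {k e : H →L[ℂ] H} (he : InI M k e) (hee : e * e = e)
    {n : ℕ} {q r : H →L[ℂ] H} (h : Dec M e n q r) (hr : InI M k r) : InI M k q := by
  induction h with
  | nil q => exact hr
  | @cons n q r w hw h1 h2 _ ih =>
    have h3 := ih hr
    have h4 : InI M k (w * star w) := by
      have : w * e * star w = w * star w := by rw [pi_mul hee h1]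
      rw [← this]
      exact he.mul hw (star_mem hw)
    have : q = (q - w * star w) + w * star w := by abel
    rw [this]; exact h3.add h4

theorem exists_pr {M : VonNeumannAlgebra H} {k : H →L[ℂ] H} (hk : k ∈ M) (hk0 : k ≠ 0) :
    ∃ p, Pr M p ∧ p ≠ 0 ∧ InI M k p := by
  set t : H →L[ℂ] H := star k * k with ht
  have htM : t ∈ M := mul_mem (star_mem hk) hk
  have ht0 : t ≠ 0 := fun h => hk0 (star_self_zero h)
  have htn : 0 < ‖t‖ := norm_pos_iff.2 ht0
  have htpos : 0 ≤ t := star_mul_self_nonneg k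
  have htsa : IsSelfAdjoint t := IsSelfAdjoint.star_mul_self k
  set c : ℝ := ‖t‖ / 2 with hc
  have hc0 : 0 < c := by positivity
  set f : ℝ → ℝ := fun s => max (s - c) 0 with hf
  set g : ℝ → ℝ := fun s => 1 / max s c with hg
  have hfc : Continuous f := by fun_prop
  have hgc : Continuous g := by
    rw [hg]
    refine Continuous.div continuous_const (by fun_prop) fun s => ?_
    have := le_max_right s c
    linarith
  set y : H →L[ℂ] H := cfc f t with hy
  set G : H →L[ℂ] H := cfc g t with hG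
  have hyM : y ∈ M := mem_of_commute htM fun z h1 h2 => by
    rw [hy]; exact h1.cfc_real f
  have hGM : G ∈ M := mem_of_commute htM fun z h1 h2 => by
    rw [hG]; exact h1.cfc_real g
  have hy0 : y ≠ 0 := by
    intro h0
    have h1 : cfc f t = cfc (fun _ : ℝ => (0:ℝ)) t := by rw [← hy, h0, cfc_const_zero]
    have h2 := (cfc_eq_cfc_iff_eqOn (R := ℝ) (a := t) (f := f) (g := fun _ => 0)
      (ha := htsa) (hf := hfc.continuousOn) (hg := continuousOn_const)).1 h1
    have h3 : ∀ x ∈ spectrum ℝ t, ‖x‖ ≤ c := by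
      intro x hx
      have h4 := h2 hx
      simp only [hf] at h4
      have h5 : x - c ≤ 0 := by rw [← h4]; exact le_max_left _ _
      have h6 : 0 ≤ x := spectrum_nonneg_of_nonneg htpos hx
      rw [Real.norm_of_nonneg h6]; linarith
    have h4 : ‖cfc (id : ℝ → ℝ) t‖ ≤ c := norm_cfc_le hc0.le h3
    rw [cfc_id ℝ t] at h4
    linarith
  have hrel : (t * G - 1) * y = 0 := by
    have e1 : t * G = cfc (fun s => s * g s) t := by
      rw [cfc_mul (fun s => s) g t (by fun_prop) hgc.continuousOn, cfc_id' ℝ t]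
    have e2 : (t * G - 1) = cfc (fun s => s * g s - 1) t := by
      rw [cfc_sub (fun s => s * g s) (fun _ => 1) t
        ((continuous_id.mul hgc).continuousOn) continuousOn_const, ← e1, cfc_const_one ℝ t]
    rw [e2, hy, ← cfc_mul (fun s => s * g s - 1) f t
      (((continuous_id.mul hgc).sub continuous_const).continuousOn) hfc.continuousOn]
    rw [← cfc_const_zero ℝ t]
    apply cfc_congr
    intro s _
    simp only [hf, hg]
    by_cases hs : s ≤ c
    · rw [max_eq_right (sub_nonpos.2 hs), mul_zero]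
    · push Not at hs
      rw [max_eq_left hs.le, mul_one_div_cancel (by linarith), sub_self, zero_mul]
  obtain ⟨p, hp, hp1, hp2⟩ := exists_proj M (LinearMap.range (y : H →ₗ[ℂ] H)) (by
    rintro z hz x ⟨w, rfl⟩
    refine ⟨z w, ?_⟩
    have := comm_of_mem hyM hz
    have h2 := congrArg (fun a : H →L[ℂ] H => a w) this
    exact h2.symm)
  have hpy : p * y = y := by
    ext w
    exact hp1 _ ⟨w, rfl⟩
  have hp3 : (t * G - 1) * p = 0 := by
    apply hp2
    rintro x ⟨w, rfl⟩
    exact congrArg (fun a : H →L[ℂ] H => a w) hrel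
  refine ⟨p, hp, ?_, ?_⟩
  · rintro rfl
    apply hy0
    rw [← hpy, zero_mul]
  · have e : star k * k * (G * p) + 0 = p := by
      have : (t * G) * p = p := by
        rw [sub_mul, one_mul, sub_eq_zero] at hp3; exact hp3
      rw [add_zero, ← ht, ← mul_assoc]; exact this
    rw [← e]
    exact InI.step InI.zero (star_mem hk) (mul_mem hGM hp.1)

/-- a finite factor is algebraically simple -/
theorem vn_simple {M : VonNeumannAlgebra H} (hM : Fac M) (hfin : Fin' M)
    {k : H →L[ℂ] H} (hk : k ∈ M) (hk0 : k ≠ 0) :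
    ∃ (n : ℕ) (x y : Fin n → H →L[ℂ] H), (∀ i, x i ∈ M) ∧ (∀ i, y i ∈ M) ∧
      ∑ i, x i * k * y i = 1 := by
  obtain ⟨p, hp, hp0, hpI⟩ := exists_pr hk hk0
  obtain ⟨n, r, hdec, -, v, hv, h1, h2⟩ := dec_exists hM hfin hp hp0 (pr_one M)
  have hr : InI M k r := by
    have : star v * p * v = r := by rw [mul_assoc, h2, h1]
    rw [← this]; exact hpI.mul (star_mem hv) hv
  exact (hpI.dec hp.2.1 hdec hr).out

end Pool.Agent.Helper757.SB
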